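import Mathlib

/-!
Combinatorial definitions: ideal triangulations of bordered surfaces with marked points, arcs in
minimal position, snake graphs, the cluster algebra with boundary frozen variables, Newton polytopes.
-/

namespace Pool.Agent.Work.MP_a9587b_co

open Finset

/-- An ideal triangulation, without self-folded triangles, of a connected oriented bordered surface
with marked points, given by gluing triangles along their sides.

`F` is the set of triangles, `E` the set of arcs of the triangulation and boundary segments, `V` the
set of marked points. The corners of a triangle `f` are `(f, 0), (f, 1), (f, 2)` in counterclockwise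
order; the `i`-th side `(f, i)` goes from the corner `(f, i)` to the corner `(f, i + 1)`.
A side `x` is glued, with reversal of direction, to the side `opp x` of another triangle; the sides
with `opp x = x` are the boundary segments. Two corners are the same marked point if and only if one
can turn around that point from one corner to the other, passing across glued sides. -/
structure IdealTriangulation where
  V : Type
  E : Type
  F : Type
  [fintypeV : Fintype V]
  [fintypeE : Fintype E]
  [fintypeF : Fintype F]
  [decidableEqV : DecidableEq V]
  [decidableEqE : DecidableEq E]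
  [decidableEqF : DecidableEq F]
  nonemptyF : Nonempty F
  vert : F × Fin 3 → V
  side : F × Fin 3 → E
  opp : F × Fin 3 → F × Fin 3
  opp_opp : ∀ x, opp (opp x) = x
  opp_tri : ∀ x, opp x ≠ x → (opp x).1 ≠ x.1
  side_surj : Function.Surjective side
  side_eq_iff : ∀ x y, side x = side y ↔ (y = x ∨ y = opp x)
  vert_surj : Function.Surjective vert
  vert_eq_iff : ∀ c c', vert c = vert c' ↔
    Relation.EqvGen (fun a b => opp a ≠ a ∧ b = ((opp a).1, (opp a).2 + 1)) c c'
  connected : ∀ f g, Relation.ReflTransGen (fun a b => ∃ i, (opp (a, i)).1 = b) f g

attribute [instance] IdealTriangulation.fintypeV IdealTriangulation.fintypeE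
  IdealTriangulation.fintypeF IdealTriangulation.decidableEqV IdealTriangulation.decidableEqE
  IdealTriangulation.decidableEqF

variable (T : IdealTriangulation)

/-- `e` is a boundary segment. -/
def IsBoundary (e : T.E) : Prop := ∃ x, T.side x = e ∧ T.opp x = x

/-- `v` is a puncture: no side at `v` is a boundary segment. -/
def IsPuncture (v : T.V) : Prop := ∀ c, T.vert c = v → T.opp c ≠ c

/-! ### Arcs in minimal position with respect to `T` -/

/-- The triangle that contains the `i`-th segment of the curve which successively leaves triangles
through the sides `x 0, x 1, ...`. -/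
def segTri (x : ℕ → T.F × Fin 3) (i : ℕ) : T.F :=
  if i = 0 then (x 0).1 else (T.opp (x (i - 1))).1

/-- The starting point of the `i`-th segment, as a point of the boundary circle `[0, 3)` of its
triangle; `p j` is the position on the side `x j` (parametrized by `[0, 1]`) of the `j`-th crossing
point. The curve starts at the corner opposite to the side `x 0`. -/
def segStart (x : ℕ → T.F × Fin 3) (p : ℕ → ℚ) (i : ℕ) : ℚ :=
  if i = 0 then (((x 0).2 + 2 : Fin 3) : ℕ)
  else ((T.opp (x (i - 1))).2 : ℕ) + (1 - p (i - 1))

/-- The end point of the `i`-th segment; the curve with `d` crossings ends at the corner opposite to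
the side through which it enters its last triangle. -/
def segEnd (d : ℕ) (x : ℕ → T.F × Fin 3) (p : ℕ → ℚ) (i : ℕ) : ℚ :=
  if i = d then (((T.opp (x (d - 1))).2 + 2 : Fin 3) : ℕ)
  else ((x i).2 : ℕ) + p i

/-- The chords `ab` and `ce` of a circle cross in the interior. -/
def Interleave (a b c e : ℚ) : Prop :=
  (min a b < c ∧ c < max a b ∧ (e < min a b ∨ max a b < e)) ∨
  (min a b < e ∧ e < max a b ∧ (c < min a b ∨ max a b < c))

/-- The positions `p` of the crossing points make the curve simple: the crossing points are
distinct interior points of the sides, and no two segments in the same triangle cross. -/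
def IsPlacement (d : ℕ) (x : ℕ → T.F × Fin 3) (p : ℕ → ℚ) : Prop :=
  (∀ i < d, 0 < p i ∧ p i < 1) ∧
  (∀ i < d, ∀ j < d, i ≠ j →
    (x j = x i → p j ≠ p i) ∧ (x j = T.opp (x i) → p j ≠ 1 - p i)) ∧
  (∀ i ≤ d, ∀ j ≤ d, i ≠ j → segTri T x i = segTri T x j →
    ¬ Interleave (segStart T x p i) (segEnd T d x p i) (segStart T x p j) (segEnd T d x p j))

/-- An arc (simple curve between marked points, not isotopic to an arc of `T` or to a boundary
segment) in minimal position with respect to `T`. It starts at the corner of the triangle
`(flag 0).1` opposite to the side `flag 0`, successively leaves triangles through the sides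
`flag 0, ..., flag (crossings - 1)`, never leaves a triangle through the side through which it has
just entered it, and ends at the corner opposite to the side through which it enters its last
triangle. Only the values of `flag` below `crossings` matter. -/
structure Arc where
  crossings : ℕ
  crossings_pos : 0 < crossings
  flag : ℕ → T.F × Fin 3
  internal : ∀ i < crossings, T.opp (flag i) ≠ flag i
  step : ∀ i, i + 1 < crossings →
    (flag (i + 1)).1 = (T.opp (flag i)).1 ∧ (flag (i + 1)).2 ≠ (T.opp (flag i)).2
  simple : ∃ p : ℕ → ℚ, IsPlacement T crossings flag p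

/-! ### Snake graphs

The `i`-th tile is the quadrilateral formed by the two triangles that contain the side `x i`, drawn
as a unit square whose south-west half is the triangle that the curve leaves and whose north-east
half is the triangle that it enters; the orientation is that of the surface for even `i`, and the
opposite one for odd `i`. Consecutive tiles are glued along the edge that is the third side of the
triangle between the two crossings. -/

/-- The `k`-th side after the side `x`, counterclockwise, in the same triangle. -/
def nextSide (x : T.F × Fin 3) (k : Fin 3) : T.E := T.side (x.1, x.2 + k)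

/-- Label of the west edge of tile `i`. -/
def labW (x : ℕ → T.F × Fin 3) (i : ℕ) : T.E :=
  if i % 2 = 0 then nextSide T (x i) 1 else nextSide T (x i) 2
/-- Label of the south edge of tile `i`. -/
def labS (x : ℕ → T.F × Fin 3) (i : ℕ) : T.E :=
  if i % 2 = 0 then nextSide T (x i) 2 else nextSide T (x i) 1
/-- Label of the east edge of tile `i`. -/
def labE (x : ℕ → T.F × Fin 3) (i : ℕ) : T.E :=
  if i % 2 = 0 then nextSide T (T.opp (x i)) 1 else nextSide T (T.opp (x i)) 2
/-- Label of the north edge of tile `i`. -/
def labN (x : ℕ → T.F × Fin 3) (i : ℕ) : T.E :=
  if i % 2 = 0 then nextSide T (T.opp (x i)) 2 else nextSide T (T.opp (x i)) 1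

/-- Tile `i + 1` is glued on top of tile `i` (rather than to its right): the third side of the
triangle between the crossings `i` and `i + 1` is the north edge of tile `i`. -/
def GoesUp (x : ℕ → T.F × Fin 3) (i : ℕ) : Prop :=
  (x (i + 1)).2 = (T.opp (x i)).2 + 1 ↔ i % 2 = 0

instance (x : ℕ → T.F × Fin 3) (i : ℕ) : Decidable (GoesUp T x i) := by
  unfold GoesUp; infer_instance

/-- South-west corner of tile `i`. -/
def tilePos (x : ℕ → T.F × Fin 3) : ℕ → ℕ × ℕ
  | 0 => (0, 0)
  | i + 1 => if GoesUp T x i then ((tilePos x i).1, (tilePos x i).2 + 1)
      else ((tilePos x i).1 + 1, (tilePos x i).2)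

/-- A labelled edge of the square grid: `(true, v, e)` is the horizontal unit edge from `v` to
`v + (1, 0)` with label `e`, and `(false, v, e)` the vertical unit edge from `v` to `v + (0, 1)`. -/
abbrev GridEdge : Type := Bool × (ℕ × ℕ) × T.E

/-- The labelled grid edge `g` is incident with the grid point `v`. -/
def Incident (g : GridEdge T) (v : ℕ × ℕ) : Prop :=
  v = g.2.1 ∨ v = (if g.1 then (g.2.1.1 + 1, g.2.1.2) else (g.2.1.1, g.2.1.2 + 1))

/-- The four labelled edges (south, north, west, east) of tile `i`. -/
def tileEdges (x : ℕ → T.F × Fin 3) (i : ℕ) : Finset (GridEdge T) :=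
  {(true, ((tilePos T x i).1, (tilePos T x i).2), labS T x i),
   (true, ((tilePos T x i).1, (tilePos T x i).2 + 1), labN T x i),
   (false, ((tilePos T x i).1, (tilePos T x i).2), labW T x i),
   (false, ((tilePos T x i).1 + 1, (tilePos T x i).2), labE T x i)}

/-- The four vertices of tile `i`. -/
def tileVerts (x : ℕ → T.F × Fin 3) (i : ℕ) : Finset (ℕ × ℕ) :=
  {((tilePos T x i).1, (tilePos T x i).2), ((tilePos T x i).1 + 1, (tilePos T x i).2),
   ((tilePos T x i).1, (tilePos T x i).2 + 1), ((tilePos T x i).1 + 1, (tilePos T x i).2 + 1)}

/-- Edges of the snake graph with `d` tiles. -/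
def snakeEdges (d : ℕ) (x : ℕ → T.F × Fin 3) : Finset (GridEdge T) :=
  (range d).biUnion (tileEdges T x)

/-- Vertices of the snake graph with `d` tiles. -/
def snakeVerts (d : ℕ) (x : ℕ → T.F × Fin 3) : Finset (ℕ × ℕ) :=
  (range d).biUnion (tileVerts T x)

open Classical in
/-- Perfect matchings of the snake graph. -/
noncomputable def matchings (d : ℕ) (x : ℕ → T.F × Fin 3) : Finset (Finset (GridEdge T)) :=
  (snakeEdges T d x).powerset.filter
    (fun M => ∀ v ∈ snakeVerts T d x, ∃! g, g ∈ M ∧ Incident T g v)

/-! ### Laurent polynomials -/

/-- Laurent polynomials with integer coefficients in variables indexed by the arcs of `T` and the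
boundary segments. -/
abbrev Laurent : Type := AddMonoidAlgebra ℤ (T.E → ℤ)

/-- The Laurent monomial with exponent vector `v`. -/
noncomputable def mono (v : T.E → ℤ) : Laurent T := AddMonoidAlgebra.single v 1

/-- The Laurent expansion attached to the snake graph: the sum over its perfect matchings `M` of the
product of the labels of the edges in `M`, divided by the product of the variables of the crossed
arcs. -/
noncomputable def snakeExpansion (d : ℕ) (x : ℕ → T.F × Fin 3) : Laurent T :=
  ∑ M ∈ matchings T d x,
    mono T (∑ g ∈ M, Pi.single g.2.2 1 - ∑ i ∈ range d, Pi.single (T.side (x i)) 1)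

/-- The Laurent expansion of the cluster variable of the arc `γ` in the variables of `T` and the
boundary frozen variables. -/
noncomputable def Arc.expansion {T : IdealTriangulation} (γ : Arc T) : Laurent T :=
  snakeExpansion T γ.crossings γ.flag

/-- The Newton polytope: convex hull of the exponent vectors of the monomials that occur. -/
def newtonPolytope (f : Laurent T) : Set (T.E → ℝ) :=
  convexHull ℝ {v | ∃ a ∈ f.coeff.support, v = fun e => (a e : ℝ)}

/-- Every lattice point of the Newton polytope is the exponent vector of a monomial that occurs. -/
def IsSaturated (f : Laurent T) : Prop :=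
  ∀ a : T.E → ℤ, (fun e => (a e : ℝ)) ∈ newtonPolytope T f → a ∈ f.coeff.support

/-! ### The cluster algebra with boundary frozen variables -/

/-- A labelled seed: an exchange matrix and the (cluster and frozen) variables, as Laurent
polynomials in the initial ones. -/
structure Seed where
  B : T.E → T.E → ℤ
  x : T.E → Laurent T

/-- The initial seed: the signed adjacency matrix of `T`, and the variables themselves. -/
noncomputable def initialSeed : Seed T where
  B i j := (#{c : T.F × Fin 3 | T.side c = i ∧ T.side (c.1, c.2 + 1) = j} : ℤ) -
    (#{c : T.F × Fin 3 | T.side c = j ∧ T.side (c.1, c.2 + 1) = i} : ℤ)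
  x i := mono T (Pi.single i 1)

/-- `s'` is the mutation of the seed `s` in direction `k`. -/
def IsMutation (s : Seed T) (k : T.E) (s' : Seed T) : Prop :=
  (∀ i j, s'.B i j = if i = k ∨ j = k then - s.B i j else
    s.B i j + max (s.B i k) 0 * max (s.B k j) 0 - max (- s.B i k) 0 * max (- s.B k j) 0) ∧
  (∀ i, i ≠ k → s'.x i = s.x i) ∧
  s.x k * s'.x k = ∏ i, s.x i ^ (s.B i k).toNat + ∏ i, s.x i ^ (- s.B i k).toNat

/-- The seeds obtained from the initial one by mutations in directions of arcs of `T`. -/
inductive Reachable : Seed T → Prop
  | initial : Reachable (initialSeed T)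
  | mutate (s s' : Seed T) (k : T.E) :
      Reachable s → ¬ IsBoundary T k → IsMutation T s k s' → Reachable s'

/-- `f` is a cluster variable of the cluster algebra with boundary frozen variables. -/
def IsClusterVariable (f : Laurent T) : Prop :=
  ∃ s : Seed T, ∃ k : T.E, Reachable T s ∧ ¬ IsBoundary T k ∧ s.x k = f

end Pool.Agent.Work.MP_a9587b_co
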