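import Mathlib

namespace Pool.Agent.Work.MP_a9587b_co

open Finset

set_option linter.unusedSectionVars false

section ear
variable {α β : Type*} [DecidableEq α] [DecidableEq β] {R : Type*} [CommRing R]

/-- perfect matchings of an abstract graph with edge set `Es`, vertex set `Vs` -/
def IsPM (inc : α → β → Prop) (Es : Finset α) (Vs : Finset β) (M : Finset α) : Prop :=
  M ⊆ Es ∧ ∀ v ∈ Vs, ∃! g, g ∈ M ∧ inc g v

variable {inc : α → β → Prop} {Es : Finset α} {Vs : Finset β} {a b u v : β} {g e1 e2 e3 : α}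

structure EarData (inc : α → β → Prop) (Es : Finset α) (Vs : Finset β) (a b u v : β)
    (g e1 e2 e3 : α) : Prop where
  hE : ∀ e ∈ Es, ∀ w, inc e w → w ∈ Vs
  hu : u ∉ Vs
  hv : v ∉ Vs
  huv : u ≠ v
  hab : a ≠ b
  ha : a ∈ Vs
  hb : b ∈ Vs
  hg : g ∈ Es
  ig : ∀ w, inc g w ↔ w = a ∨ w = b
  i1 : ∀ w, inc e1 w ↔ w = a ∨ w = u
  i2 : ∀ w, inc e2 w ↔ w = u ∨ w = v
  i3 : ∀ w, inc e3 w ↔ w = v ∨ w = b

theorem EarData.ne12 (h : EarData inc Es Vs a b u v g e1 e2 e3) : e1 ≠ e2 := by
  rintro rfl
  have := (h.i1 a).2 (Or.inl rfl)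
  rw [h.i2] at this
  rcases this with rfl | rfl
  · exact h.hu h.ha
  · exact h.hv h.ha

theorem EarData.ne13 (h : EarData inc Es Vs a b u v g e1 e2 e3) : e1 ≠ e3 := by
  rintro rfl
  have := (h.i1 u).2 (Or.inr rfl)
  rw [h.i3] at this
  rcases this with h1 | rfl
  · exact h.huv h1
  · exact h.hu h.hb

theorem EarData.ne23 (h : EarData inc Es Vs a b u v g e1 e2 e3) : e2 ≠ e3 := by
  rintro rfl
  have := (h.i2 u).2 (Or.inl rfl)
  rw [h.i3] at this
  rcases this with h1 | rfl
  · exact h.huv h1
  · exact h.hu h.hb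

theorem EarData.n1 (h : EarData inc Es Vs a b u v g e1 e2 e3) : e1 ∉ Es := fun hh =>
  h.hu (h.hE _ hh u ((h.i1 u).2 (Or.inr rfl)))
theorem EarData.n2 (h : EarData inc Es Vs a b u v g e1 e2 e3) : e2 ∉ Es := fun hh =>
  h.hu (h.hE _ hh u ((h.i2 u).2 (Or.inl rfl)))
theorem EarData.n3 (h : EarData inc Es Vs a b u v g e1 e2 e3) : e3 ∉ Es := fun hh =>
  h.hv (h.hE _ hh v ((h.i3 v).2 (Or.inl rfl)))

/-- matchings that contain the middle edge of the ear -/
theorem EarData.pm_insert (h : EarData inc Es Vs a b u v g e1 e2 e3) {M : Finset α}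
    (hM : IsPM inc Es Vs M) :
    IsPM inc (insert e1 (insert e2 (insert e3 Es))) (insert u (insert v Vs)) (insert e2 M) := by
  refine ⟨?_, ?_⟩
  · intro e he
    rw [mem_insert] at he
    rcases he with rfl | he
    · simp
    · simp [hM.1 he]
  · intro w hw
    rw [mem_insert, mem_insert] at hw
    have key : ∀ w, w = u ∨ w = v → ∃! g, g ∈ insert e2 M ∧ inc g w := by
      intro w hw
      refine ⟨e2, ⟨by simp, (h.i2 w).2 hw⟩, ?_⟩
      rintro e ⟨he, hew⟩
      rw [mem_insert] at he
      rcases he with rfl | he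
      · rfl
      · have := h.hE e (hM.1 he) w hew
        rcases hw with rfl | rfl
        · exact absurd this h.hu
        · exact absurd this h.hv
    rcases hw with hw | hw | hw
    · exact key w (Or.inl hw)
    · exact key w (Or.inr hw)
    · obtain ⟨e, ⟨he, hew⟩, huniq⟩ := hM.2 w hw
      refine ⟨e, ⟨by simp [he], hew⟩, ?_⟩
      rintro e' ⟨he', hew'⟩
      rw [mem_insert] at he'
      rcases he' with rfl | he'
      · rw [h.i2] at hew'
        rcases hew' with rfl | rfl
        · exact absurd hw h.hu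
        · exact absurd hw h.hv
      · exact huniq e' ⟨he', hew'⟩

theorem EarData.pm_erase (h : EarData inc Es Vs a b u v g e1 e2 e3) {M : Finset α}
    (hM : IsPM inc (insert e1 (insert e2 (insert e3 Es))) (insert u (insert v Vs)) M)
    (h2 : e2 ∈ M) : IsPM inc Es Vs (M.erase e2) := by
  have hn1 : e1 ∉ M := by
    intro h1
    obtain ⟨e, _, huniq⟩ := hM.2 u (by simp)
    have := (huniq e1 ⟨h1, (h.i1 u).2 (Or.inr rfl)⟩).trans
      (huniq e2 ⟨h2, (h.i2 u).2 (Or.inl rfl)⟩).symm
    exact h.ne12 this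
  have hn3 : e3 ∉ M := by
    intro h1
    obtain ⟨e, _, huniq⟩ := hM.2 v (by simp)
    have := (huniq e3 ⟨h1, (h.i3 v).2 (Or.inl rfl)⟩).trans
      (huniq e2 ⟨h2, (h.i2 v).2 (Or.inr rfl)⟩).symm
    exact h.ne23 this.symm
  refine ⟨?_, ?_⟩
  · intro e he
    rw [mem_erase] at he
    have := hM.1 he.2
    simp only [mem_insert] at this
    rcases this with rfl | rfl | rfl | this
    · exact absurd he.2 hn1
    · exact absurd rfl he.1
    · exact absurd he.2 hn3
    · exact this
  · intro w hw
    obtain ⟨e, ⟨he, hew⟩, huniq⟩ := hM.2 w (by simp [hw])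
    refine ⟨e, ⟨?_, hew⟩, ?_⟩
    · rw [mem_erase]
      refine ⟨?_, he⟩
      rintro rfl
      rw [h.i2] at hew
      rcases hew with rfl | rfl
      · exact h.hu hw
      · exact h.hv hw
    · rintro e' ⟨he', hew'⟩
      exact huniq e' ⟨(mem_erase.1 he').2, hew'⟩

/-- matchings that do not contain the middle edge contain the two outer ones -/
theorem EarData.mem13 (h : EarData inc Es Vs a b u v g e1 e2 e3) {M : Finset α}
    (hM : IsPM inc (insert e1 (insert e2 (insert e3 Es))) (insert u (insert v Vs)) M)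
    (h2 : e2 ∉ M) : e1 ∈ M ∧ e3 ∈ M := by
  constructor
  · obtain ⟨e, ⟨he, heu⟩, huniq⟩ := hM.2 u (by simp)
    have := hM.1 he
    simp only [mem_insert] at this
    rcases this with rfl | rfl | rfl | this
    · exact he
    · exact absurd he h2
    · rw [h.i3] at heu
      rcases heu with h1 | rfl
      · exact absurd h1 h.huv
      · exact absurd h.hb h.hu
    · exact absurd (h.hE e this u heu) h.hu
  · obtain ⟨e, ⟨he, heu⟩, huniq⟩ := hM.2 v (by simp)
    have := hM.1 he
    simp only [mem_insert] at this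
    rcases this with rfl | rfl | rfl | this
    · rw [h.i1] at heu
      rcases heu with rfl | h1
      · exact absurd h.ha h.hv
      · exact absurd h1.symm h.huv
    · exact absurd he h2
    · exact he
    · exact absurd (h.hE e this v heu) h.hv

theorem EarData.not_mem2 (h : EarData inc Es Vs a b u v g e1 e2 e3) {M : Finset α}
    (hM : IsPM inc (insert e1 (insert e2 (insert e3 Es))) (insert u (insert v Vs)) M) :
    (e2 ∉ M ↔ e3 ∈ M) ∧ (e2 ∉ M ↔ e1 ∈ M) := by
  refine ⟨⟨fun h2 => (h.mem13 hM h2).2, ?_⟩, ⟨fun h2 => (h.mem13 hM h2).1, ?_⟩⟩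
  · intro h3 h2
    obtain ⟨e, _, huniq⟩ := hM.2 v (by simp)
    have := (huniq e3 ⟨h3, (h.i3 v).2 (Or.inl rfl)⟩).trans
      (huniq e2 ⟨h2, (h.i2 v).2 (Or.inr rfl)⟩).symm
    exact h.ne23 this.symm
  · intro h1 h2
    obtain ⟨e, _, huniq⟩ := hM.2 u (by simp)
    have := (huniq e1 ⟨h1, (h.i1 u).2 (Or.inr rfl)⟩).trans
      (huniq e2 ⟨h2, (h.i2 u).2 (Or.inl rfl)⟩).symm
    exact h.ne12 this

theorem EarData.pm_swap (h : EarData inc Es Vs a b u v g e1 e2 e3) {M : Finset α}
    (hM : IsPM inc (insert e1 (insert e2 (insert e3 Es))) (insert u (insert v Vs)) M)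
    (h2 : e2 ∉ M) : IsPM inc Es Vs (insert g ((M.erase e1).erase e3)) ∧ g ∉ M := by
  obtain ⟨h1, h3⟩ := h.mem13 hM h2
  have hgM : g ∉ M := by
    intro hgM
    obtain ⟨e, _, huniq⟩ := hM.2 a (by simp [h.ha])
    have := (huniq e1 ⟨h1, (h.i1 a).2 (Or.inl rfl)⟩).trans
      (huniq g ⟨hgM, (h.ig a).2 (Or.inl rfl)⟩).symm
    exact h.n1 (this ▸ h.hg)
  refine ⟨⟨?_, ?_⟩, hgM⟩
  · intro e he
    simp only [mem_insert, mem_erase] at he
    rcases he with rfl | ⟨hne3, hne1, he⟩
    · exact h.hg
    · have := hM.1 he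
      simp only [mem_insert] at this
      rcases this with rfl | rfl | rfl | this
      · exact absurd rfl hne1
      · exact absurd he h2
      · exact absurd rfl hne3
      · exact this
  · intro w hw
    obtain ⟨e, ⟨he, hew⟩, huniq⟩ := hM.2 w (by simp [hw])
    by_cases hwab : w = a ∨ w = b
    · refine ⟨g, ⟨by simp, (h.ig w).2 hwab⟩, ?_⟩
      rintro e' ⟨he', hew'⟩
      simp only [mem_insert, mem_erase] at he'
      rcases he' with rfl | ⟨hne3, hne1, he'⟩
      · rfl
      · exfalso
        rcases hwab with rfl | rfl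
        · exact hne1 ((huniq e' ⟨he', hew'⟩).trans
            (huniq e1 ⟨h1, (h.i1 _).2 (Or.inl rfl)⟩).symm)
        · exact hne3 ((huniq e' ⟨he', hew'⟩).trans
            (huniq e3 ⟨h3, (h.i3 _).2 (Or.inr rfl)⟩).symm)
    · have hwu : w ≠ u := fun hh => h.hu (hh ▸ hw)
      have hwv : w ≠ v := fun hh => h.hv (hh ▸ hw)
      push Not at hwab
      refine ⟨e, ⟨?_, hew⟩, ?_⟩
      · simp only [mem_insert, mem_erase]
        right
        refine ⟨?_, ?_, he⟩
        · rintro rfl
          rw [h.i3] at hew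
          rcases hew with h' | h'
          · exact hwv h'
          · exact hwab.2 h'
        · rintro rfl
          rw [h.i1] at hew
          rcases hew with h' | h'
          · exact hwab.1 h'
          · exact hwu h'
      · rintro e' ⟨he', hew'⟩
        simp only [mem_insert, mem_erase] at he'
        rcases he' with rfl | ⟨hne3, hne1, he'⟩
        · rw [h.ig] at hew'
          rcases hew' with h' | h'
          · exact absurd h' hwab.1
          · exact absurd h' hwab.2
        · exact huniq e' ⟨he', hew'⟩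

theorem EarData.pm_unswap (h : EarData inc Es Vs a b u v g e1 e2 e3) {M : Finset α}
    (hM : IsPM inc Es Vs M) (hg : g ∈ M) :
    IsPM inc (insert e1 (insert e2 (insert e3 Es))) (insert u (insert v Vs))
      (insert e1 (insert e3 (M.erase g))) := by
  refine ⟨?_, ?_⟩
  · intro e he
    simp only [mem_insert, mem_erase] at he
    simp only [mem_insert]
    rcases he with rfl | rfl | ⟨_, he⟩
    · simp
    · simp
    · right; right; right; exact hM.1 he
  · intro w hw
    simp only [mem_insert] at hw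
    rcases hw with rfl | rfl | hw
    · refine ⟨e1, ⟨by simp, (h.i1 _).2 (Or.inr rfl)⟩, ?_⟩
      rintro e ⟨he, hew⟩
      simp only [mem_insert, mem_erase] at he
      rcases he with rfl | rfl | ⟨_, he⟩
      · rfl
      · rw [h.i3] at hew
        rcases hew with h' | rfl
        · exact absurd h' h.huv
        · exact absurd h.hb h.hu
      · exact absurd (h.hE e (hM.1 he) _ hew) h.hu
    · refine ⟨e3, ⟨by simp, (h.i3 _).2 (Or.inl rfl)⟩, ?_⟩
      rintro e ⟨he, hew⟩
      simp only [mem_insert, mem_erase] at he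
      rcases he with rfl | rfl | ⟨_, he⟩
      · rw [h.i1] at hew
        rcases hew with rfl | h'
        · exact absurd h.ha h.hv
        · exact absurd h'.symm h.huv
      · rfl
      · exact absurd (h.hE e (hM.1 he) _ hew) h.hv
    · obtain ⟨e, ⟨he, hew⟩, huniq⟩ := hM.2 w hw
      have hwu : w ≠ u := fun hh => h.hu (hh ▸ hw)
      have hwv : w ≠ v := fun hh => h.hv (hh ▸ hw)
      by_cases hwa : w = a
      · subst hwa
        refine ⟨e1, ⟨by simp, (h.i1 _).2 (Or.inl rfl)⟩, ?_⟩
        rintro e' ⟨he', hew'⟩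
        simp only [mem_insert, mem_erase] at he'
        rcases he' with rfl | rfl | ⟨hne, he'⟩
        · rfl
        · rw [h.i3] at hew'
          rcases hew' with h' | h'
          · exact absurd h' hwv
          · exact absurd h' h.hab
        · exact absurd ((huniq e' ⟨he', hew'⟩).trans
            (huniq g ⟨hg, (h.ig _).2 (Or.inl rfl)⟩).symm) hne
      · by_cases hwb : w = b
        · subst hwb
          refine ⟨e3, ⟨by simp, (h.i3 _).2 (Or.inr rfl)⟩, ?_⟩
          rintro e' ⟨he', hew'⟩
          simp only [mem_insert, mem_erase] at he'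
          rcases he' with rfl | rfl | ⟨hne, he'⟩
          · rw [h.i1] at hew'
            rcases hew' with h' | h'
            · exact absurd h' hwa
            · exact absurd h' hwu
          · rfl
          · exact absurd ((huniq e' ⟨he', hew'⟩).trans
              (huniq g ⟨hg, (h.ig _).2 (Or.inr rfl)⟩).symm) hne
        · refine ⟨e, ⟨?_, hew⟩, ?_⟩
          · simp only [mem_insert, mem_erase]
            right; right
            refine ⟨?_, he⟩
            rintro rfl
            rw [h.ig] at hew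
            rcases hew with h' | h'
            · exact hwa h'
            · exact hwb h'
          · rintro e' ⟨he', hew'⟩
            simp only [mem_insert, mem_erase] at he'
            rcases he' with rfl | rfl | ⟨hne, he'⟩
            · rw [h.i1] at hew'
              rcases hew' with h' | h'
              · exact absurd h' hwa
              · exact absurd h' hwu
            · rw [h.i3] at hew'
              rcases hew' with h' | h'
              · exact absurd h' hwv
              · exact absurd h' hwb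
            · exact huniq e' ⟨he', hew'⟩

open Classical in
/-- finset of perfect matchings -/
noncomputable def pms (inc : α → β → Prop) (Es : Finset α) (Vs : Finset β) :
    Finset (Finset α) := Es.powerset.filter (fun M => ∀ v ∈ Vs, ∃! g, g ∈ M ∧ inc g v)

theorem mem_pms {M : Finset α} : M ∈ pms inc Es Vs ↔ IsPM inc Es Vs M := by
  classical
  unfold pms IsPM
  simp only [mem_filter, mem_powerset]

theorem EarData.sum_mid (h : EarData inc Es Vs a b u v g e1 e2 e3) (w : α → R) :
    ∑ M ∈ (pms inc (insert e1 (insert e2 (insert e3 Es))) (insert u (insert v Vs))).filter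
        (fun M => e2 ∈ M), ∏ e ∈ M, w e =
      (∑ M ∈ pms inc Es Vs, ∏ e ∈ M, w e) * w e2 := by
  rw [Finset.sum_mul]
  symm
  refine Finset.sum_nbij' (fun M => insert e2 M) (fun M => M.erase e2) ?_ ?_ ?_ ?_ ?_
  · intro M hM
    rw [mem_filter, mem_pms]
    exact ⟨h.pm_insert (mem_pms.1 hM), by simp⟩
  · intro M hM
    rw [mem_filter, mem_pms] at hM
    exact mem_pms.2 (h.pm_erase hM.1 hM.2)
  · intro M hM
    have : e2 ∉ M := fun hh => h.n2 ((mem_pms.1 hM).1 hh)
    simp [this]
  · intro M hM
    rw [mem_filter] at hM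
    exact Finset.insert_erase hM.2
  · intro M hM
    have : e2 ∉ M := fun hh => h.n2 ((mem_pms.1 hM).1 hh)
    rw [Finset.prod_insert this, mul_comm]

theorem EarData.sum_outer (h : EarData inc Es Vs a b u v g e1 e2 e3) (w : α → R) :
    (∑ M ∈ (pms inc (insert e1 (insert e2 (insert e3 Es))) (insert u (insert v Vs))).filter
        (fun M => e2 ∉ M), ∏ e ∈ M, w e) * w g =
      (∑ M ∈ (pms inc Es Vs).filter (fun M => g ∈ M), ∏ e ∈ M, w e) * w e1 * w e3 := by
  rw [Finset.sum_mul, Finset.sum_mul, Finset.sum_mul]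
  refine Finset.sum_nbij' (fun M => insert g ((M.erase e1).erase e3))
    (fun M => insert e1 (insert e3 (M.erase g))) ?_ ?_ ?_ ?_ ?_
  · intro M hM
    rw [mem_filter, mem_pms] at hM
    rw [mem_filter, mem_pms]
    exact ⟨(h.pm_swap hM.1 hM.2).1, by simp⟩
  · intro M hM
    rw [mem_filter, mem_pms] at hM
    rw [mem_filter, mem_pms]
    have hpm := h.pm_unswap hM.1 hM.2
    exact ⟨hpm, (h.not_mem2 hpm).2.2 (by simp)⟩
  · intro M hM
    rw [mem_filter, mem_pms] at hM
    obtain ⟨h1, h3⟩ := h.mem13 hM.1 hM.2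
    obtain ⟨_, hgM⟩ := h.pm_swap hM.1 hM.2
    have hg' : g ∉ (M.erase e1).erase e3 := by simp [hgM]
    rw [Finset.erase_insert hg', Finset.insert_erase (by simp [h3, h.ne13.symm]),
      Finset.insert_erase h1]
  · intro M hM
    rw [mem_filter, mem_pms] at hM
    have h1 : e1 ∉ M := fun hh => h.n1 (hM.1.1 hh)
    have h3 : e3 ∉ M := fun hh => h.n3 (hM.1.1 hh)
    have h1' : e1 ∉ insert e3 (M.erase g) := by simp [h1, h.ne13]
    have h3' : e3 ∉ M.erase g := by simp [h3]
    rw [Finset.erase_insert h1', Finset.erase_insert h3', Finset.insert_erase hM.2]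
  · intro M hM
    rw [mem_filter, mem_pms] at hM
    obtain ⟨h1, h3⟩ := h.mem13 hM.1 hM.2
    obtain ⟨_, hgM⟩ := h.pm_swap hM.1 hM.2
    have hg' : g ∉ (M.erase e1).erase e3 := by simp [hgM]
    have h3' : e3 ∈ M.erase e1 := by simp [h3, h.ne13.symm]
    rw [Finset.prod_insert hg', ← Finset.mul_prod_erase M w h1,
      ← Finset.mul_prod_erase (M.erase e1) w h3']
    ring

end ear

end Pool.Agent.Work.MP_a9587b_co
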