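import Pool.Agent.Work.MP_a9587b_co.Recur

namespace Pool.Agent.Work.MP_a9587b_co

open Finset

set_option linter.unusedSimpArgs false
set_option linter.unusedSectionVars false

/-- corners: marked point `0` on the boundary, punctures `1` and `2` -/
def mVert (c : Fin 3 × Fin 3) : Fin 3 :=
  (![![0, 1, 0], ![0, 2, 1], ![2, 0, 1]] : Fin 3 → Fin 3 → Fin 3) c.1 c.2

/-- sides: arcs `0, 1, 2` from the boundary marked point to the punctures, the arc `3` between the
punctures, and the boundary segment `4` -/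
def mSide (c : Fin 3 × Fin 3) : Fin 5 :=
  (![![0, 2, 4], ![1, 3, 0], ![1, 2, 3]] : Fin 3 → Fin 3 → Fin 5) c.1 c.2

/-- gluing -/
def mOpp (c : Fin 3 × Fin 3) : Fin 3 × Fin 3 :=
  (![![(1, 2), (2, 1), (0, 2)], ![(2, 0), (2, 2), (0, 0)], ![(1, 0), (0, 1), (1, 1)]] :
    Fin 3 → Fin 3 → Fin 3 × Fin 3) c.1 c.2

/-- rotation about a marked point -/
def mRot (a b : Fin 3 × Fin 3) : Prop := mOpp a ≠ a ∧ b = ((mOpp a).1, (mOpp a).2 + 1)

instance (a b : Fin 3 × Fin 3) : Decidable (mRot a b) := by unfold mRot; infer_instance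

theorem mRot_vert : ∀ a b, mRot a b → mVert a = mVert b := by decide

/-- representative corner of each marked point -/
def mRep : Fin 3 → Fin 3 × Fin 3 := ![(0, 0), (0, 1), (1, 1)]

theorem mRot_rep (c : Fin 3 × Fin 3) : Relation.EqvGen mRot (mRep (mVert c)) c := by
  have r : ∀ a b, mRot a b → Relation.EqvGen mRot a b := fun a b h => Relation.EqvGen.rel a b h
  have h1 : Relation.EqvGen mRot (0, 0) (1, 0) := r _ _ (by decide)
  have h2 : Relation.EqvGen mRot (1, 0) (2, 1) := r _ _ (by decide)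
  have h3 : Relation.EqvGen mRot (2, 1) (0, 2) := r _ _ (by decide)
  have h4 : Relation.EqvGen mRot (0, 1) (2, 2) := r _ _ (by decide)
  have h5 : Relation.EqvGen mRot (2, 2) (1, 2) := r _ _ (by decide)
  have h6 : Relation.EqvGen mRot (1, 1) (2, 0) := r _ _ (by decide)
  obtain ⟨f, i⟩ := c
  fin_cases f <;> fin_cases i
  · exact Relation.EqvGen.refl _
  · exact Relation.EqvGen.refl _
  · exact (h1.trans _ _ _ h2).trans _ _ _ h3
  · exact h1
  · exact Relation.EqvGen.refl _
  · exact h4.trans _ _ _ h5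
  · exact h6
  · exact h1.trans _ _ _ h2
  · exact h4

theorem mVert_iff (c c' : Fin 3 × Fin 3) : mVert c = mVert c' ↔ Relation.EqvGen mRot c c' := by
  constructor
  · intro h
    have h1 := mRot_rep c
    rw [h] at h1
    exact (h1.symm _ _).trans _ _ _ (mRot_rep c')
  · intro h
    induction h with
    | rel a b h => exact mRot_vert a b h
    | refl a => rfl
    | symm a b _ ih => exact ih.symm
    | trans a b c _ _ ih1 ih2 => exact ih1.trans ih2

/-- The twice-punctured monogon with a triangulation into three triangles. -/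
def monogon : IdealTriangulation where
  V := Fin 3
  E := Fin 5
  F := Fin 3
  nonemptyF := ⟨0⟩
  vert := mVert
  side := mSide
  opp := mOpp
  opp_opp := by decide
  opp_tri := by decide
  side_surj := by
    intro e
    revert e; decide
  side_eq_iff := by decide
  vert_surj := by
    intro v
    revert v; decide
  vert_eq_iff := mVert_iff
  connected := by
    have h : ∀ f g : Fin 3, ∃ i, (mOpp (f, i)).1 = g ∨ f = g := by decide
    intro f g
    obtain ⟨i, hi | hi⟩ := h f g
    · exact Relation.ReflTransGen.single ⟨i, hi⟩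
    · subst hi; exact Relation.ReflTransGen.refl

/-- the crossing sequence of the spiralling arcs -/
def sp (i : ℕ) : Fin 3 × Fin 3 :=
  if i % 3 = 0 then (0, 0) else if i % 3 = 1 then (1, 0) else (2, 1)

theorem sp0 (m : ℕ) : sp (3 * m) = (0, 0) := by unfold sp; rw [if_pos (by omega)]
theorem sp1 (m : ℕ) : sp (3 * m + 1) = (1, 0) := by
  unfold sp; rw [if_neg (by omega), if_pos (by omega)]
theorem sp2 (m : ℕ) : sp (3 * m + 2) = (2, 1) := by
  unfold sp; rw [if_neg (by omega), if_neg (by omega)]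
theorem sp3 (m : ℕ) : sp (3 * m + 3) = (0, 0) := by
  unfold sp; rw [if_pos (by omega)]

theorem mod3_cases (i : ℕ) : ∃ m, i = 3 * m ∨ i = 3 * m + 1 ∨ i = 3 * m + 2 :=
  ⟨i / 3, by omega⟩

theorem sp_valid : Valid monogon sp := by
  intro i
  obtain ⟨m, rfl | rfl | rfl⟩ := mod3_cases i
  · rw [sp1, sp0]; decide
  · rw [show 3 * m + 1 + 1 = 3 * m + 2 by ring, sp2, sp1]; decide
  · rw [show 3 * m + 2 + 1 = 3 * m + 3 by ring, sp3, sp2]; decide

theorem sp_turn0 (m : ℕ) : (sp (3 * m + 1) : monogon.F × Fin 3) =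
    ((monogon.opp (sp (3 * m))).1, (monogon.opp (sp (3 * m))).2 + 1) := by
  rw [sp1, sp0]; decide
theorem sp_turn1 (m : ℕ) : (sp (3 * m + 1 + 1) : monogon.F × Fin 3) =
    ((monogon.opp (sp (3 * m + 1))).1, (monogon.opp (sp (3 * m + 1))).2 + 1) := by
  rw [show 3 * m + 1 + 1 = 3 * m + 2 by ring, sp2, sp1]; decide
theorem sp_turn2 (m : ℕ) : (sp (3 * m + 2 + 1) : monogon.F × Fin 3) =
    ((monogon.opp (sp (3 * m + 2))).1, (monogon.opp (sp (3 * m + 2))).2 + 2) := by
  rw [show 3 * m + 2 + 1 = 3 * m + 3 by ring, sp3, sp2]; decide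

/-- abbreviation for the Laurent ring -/
abbrev LM : Type := Laurent monogon

noncomputable def v (i : Fin 5) : LM := vr monogon i
noncomputable def vinv (i : Fin 5) : LM := vi monogon i

theorem v_vinv (i : Fin 5) : v i * vinv i = 1 := vr_vi (T := monogon) i

/-- the monomial `u = x₀ / x₂` -/
noncomputable def uu : LM := v 0 * vinv 2
noncomputable def ui : LM := v 2 * vinv 0
/-- the monomial `w = x₃ x₄ / (x₁ x₂)` -/
noncomputable def ww : LM := v 3 * v 4 * vinv 1 * vinv 2

theorem uu_ui : uu * ui = 1 := by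
  unfold uu ui
  linear_combination (v 0 * vinv 0) * v_vinv 2 + v_vinv 0

theorem ww_mul : v 1 * v 2 * ww = v 3 * v 4 := by
  unfold ww
  linear_combination (v 2 * vinv 2 * v 3 * v 4) * v_vinv 1 + (v 3 * v 4) * v_vinv 2

/-- the three sequences; the entries are `(Z, X, W)` -/
noncomputable def zxw : ℕ → LM × LM × LM
  | 0 => (1, 1, 0)
  | n + 1 =>
    (ww * (uu * (zxw n).2.2 + (zxw n).1) +
      ui * (ww * (uu * (zxw n).2.2 + (zxw n).1) + (zxw n).1),
     ui * (ww * (uu * (zxw n).2.2 + (zxw n).1) + (zxw n).1),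
     uu * (zxw n).2.2 + (zxw n).1)

noncomputable def Zs (n : ℕ) : LM := (zxw n).1
noncomputable def Xs (n : ℕ) : LM := (zxw n).2.1
noncomputable def Ws (n : ℕ) : LM := (zxw n).2.2

theorem Zs0 : Zs 0 = 1 := rfl
theorem Xs0 : Xs 0 = 1 := rfl
theorem Ws0 : Ws 0 = 0 := rfl
theorem Ws_succ (n : ℕ) : Ws (n + 1) = uu * Ws n + Zs n := rfl
theorem Xs_succ (n : ℕ) : Xs (n + 1) = ui * (ww * Ws (n + 1) + Zs n) := rfl
theorem Zs_succ (n : ℕ) : Zs (n + 1) = ww * Ws (n + 1) + Xs (n + 1) := rfl

theorem Zs_eq (n : ℕ) : Zs n = ww * Ws n + Xs n := by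
  cases n with
  | zero => rw [Zs0, Ws0, Xs0]; ring
  | succ n => exact Zs_succ n

theorem uu_Xs (n : ℕ) : uu * Xs (n + 1) = ww * Ws (n + 1) + Zs n := by
  rw [Xs_succ]
  linear_combination (ww * Ws (n + 1) + Zs n) * uu_ui

theorem uu_cancel {a b : LM} (h : uu * a = uu * b) : a = b := by
  have : ui * (uu * a) = ui * (uu * b) := congrArg (fun t => ui * t) h
  have e : ui * uu = 1 := by rw [mul_comm]; exact uu_ui
  rw [← mul_assoc, ← mul_assoc, e, one_mul, one_mul] at this
  exact this

/-- the invariants -/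
theorem inv_P (n : ℕ) : Xs n * Ws (n + 1) - Ws n * Xs (n + 1) = 1 ∧
    Zs n * Ws (n + 1) - Ws n * Zs (n + 1) = 1 := by
  induction n with
  | zero =>
    rw [Ws_succ, Xs0, Zs0, Ws0]
    constructor <;> ring
  | succ n ih =>
    obtain ⟨ih1, ih2⟩ := ih
    have hP : Xs (n + 1) * Ws (n + 2) - Ws (n + 1) * Xs (n + 2) = 1 := by
      apply uu_cancel
      have a1 := uu_Xs n
      have a2 := uu_Xs (n + 1)
      have a3 := Ws_succ (n + 1)
      have a4 := Ws_succ n
      linear_combination Ws (n + 2) * a1 - Ws (n + 1) * a2 + Zs n * a3 - Zs (n + 1) * a4 + uu * ih2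
    refine ⟨hP, ?_⟩
    have b1 := Zs_eq (n + 1)
    have b2 := Zs_eq (n + 2)
    linear_combination hP + Ws (n + 2) * b1 - Ws (n + 1) * b2

theorem exch_odd (n : ℕ) : Xs n * Zs (n + 1) = Zs n * Xs (n + 1) + ww := by
  have h := (inv_P n).1
  have b1 := Zs_eq n
  have b2 := Zs_eq (n + 1)
  linear_combination ww * h + Xs n * b2 - Xs (n + 1) * b1

theorem exch_even (n : ℕ) : Zs n * Xs (n + 2) = Xs (n + 1) * Zs (n + 1) + ww := by
  apply uu_cancel
  have h := (inv_P n).2
  have a1 := uu_Xs n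
  have a2 := uu_Xs (n + 1)
  have a3 := Ws_succ (n + 1)
  have a4 := Ws_succ n
  linear_combination Zs n * a2 - Zs (n + 1) * a1 + ww * Zs n * a3 - ww * Zs (n + 1) * a4 +
    uu * ww * h

/-- the expansions along the spiral -/
theorem spiral (m : ℕ) :
    pq (T := monogon) sp (3 * m) = (v 2 * Zs m, v 4 * Ws (m + 1)) ∧
    lad (T := monogon) sp (3 * m) = v 1 * Xs (m + 1) ∧
    lad (T := monogon) sp (3 * m + 1) = v 2 * Zs (m + 1) ∧
    lad (T := monogon) sp (3 * m + 2) = v 4 * Ws (m + 2) := by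
  have key : ∀ m, pq (T := monogon) sp (3 * m) = (v 2 * Zs m, v 4 * Ws (m + 1)) →
      lad (T := monogon) sp (3 * m) = v 1 * Xs (m + 1) ∧
      lad (T := monogon) sp (3 * m + 1) = v 2 * Zs (m + 1) ∧
      lad (T := monogon) sp (3 * m + 2) = v 4 * Ws (m + 2) ∧
      pq (T := monogon) sp (3 * m + 3) = (v 2 * Zs (m + 1), v 4 * Ws (m + 2)) := by
    intro m hm
    have h1 : lad (T := monogon) sp (3 * m) = v 1 * Xs (m + 1) := by
      unfold lad
      rw [hm, sp0]
      have e1 : nextSide monogon (monogon.opp ((0, 0) : Fin 3 × Fin 3)) 1 = (1 : Fin 5) := by decide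
      have e2 : nextSide monogon (monogon.opp ((0, 0) : Fin 3 × Fin 3)) 2 = (3 : Fin 5) := by decide
      have e3 : monogon.side ((0, 0) : Fin 3 × Fin 3) = (0 : Fin 5) := by decide
      rw [e1, e2, e3]
      change (v 2 * Zs m * v 1 + v 4 * Ws (m + 1) * v 3) * vinv 0 = _
      rw [Xs_succ]
      have := ww_mul
      unfold ui
      linear_combination (-(Ws (m + 1) * vinv 0)) * this
    have h1' := pq_turn1 (T := monogon) (sp_turn0 m)
    rw [hm, h1] at h1'
    have h2 : lad (T := monogon) sp (3 * m + 1) = v 2 * Zs (m + 1) := by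
      unfold lad
      rw [h1', sp1]
      have e1 : nextSide monogon (monogon.opp ((1, 0) : Fin 3 × Fin 3)) 1 = (2 : Fin 5) := by decide
      have e2 : nextSide monogon (monogon.opp ((1, 0) : Fin 3 × Fin 3)) 2 = (3 : Fin 5) := by decide
      have e3 : monogon.side ((1, 0) : Fin 3 × Fin 3) = (1 : Fin 5) := by decide
      rw [e1, e2, e3]
      change (v 1 * Xs (m + 1) * v 2 + v 4 * Ws (m + 1) * v 3) * vinv 1 = _
      rw [Zs_succ]
      have := ww_mul
      have h1 := v_vinv 1
      linear_combination (-(Ws (m + 1) * vinv 1)) * this +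
        (v 2 * Xs (m + 1) + v 2 * ww * Ws (m + 1)) * h1
    have h2' := pq_turn1 (T := monogon) (sp_turn1 m)
    rw [h1', h2] at h2'
    have h3 : lad (T := monogon) sp (3 * m + 2) = v 4 * Ws (m + 2) := by
      unfold lad
      rw [show (3 * m + 2) = (3 * m + 1 + 1) by ring, h2', show (3 * m + 1 + 1) = (3 * m + 2) by ring,
        sp2]
      have e1 : nextSide monogon (monogon.opp ((2, 1) : Fin 3 × Fin 3)) 1 = (4 : Fin 5) := by decide
      have e2 : nextSide monogon (monogon.opp ((2, 1) : Fin 3 × Fin 3)) 2 = (0 : Fin 5) := by decide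
      have e3 : monogon.side ((2, 1) : Fin 3 × Fin 3) = (2 : Fin 5) := by decide
      rw [e1, e2, e3]
      change (v 2 * Zs (m + 1) * v 4 + v 4 * Ws (m + 1) * v 0) * vinv 2 = _
      rw [Ws_succ (m + 1)]
      unfold uu
      have h1 := v_vinv 2
      linear_combination (v 4 * Zs (m + 1)) * h1
    have h3' := pq_turn2 (T := monogon) (sp_turn2 m)
    rw [h3] at h3'
    rw [show (3 * m + 2) = (3 * m + 1 + 1) by ring, h2'] at h3'
    exact ⟨h1, h2, h3, h3'⟩
  have main : ∀ m, pq (T := monogon) sp (3 * m) = (v 2 * Zs m, v 4 * Ws (m + 1)) := by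
    intro m
    induction m with
    | zero =>
      have e1 : nextSide monogon (sp 0) 1 = (2 : Fin 5) := by decide
      have e2 : nextSide monogon (sp 0) 2 = (4 : Fin 5) := by decide
      rw [mul_zero, pq, e1, e2, Zs0, Ws_succ, Ws0, Zs0]
      simp [v]
    | succ m ih => exact (key m ih).2.2.2
  exact ⟨main m, (key m (main m)).1, (key m (main m)).2.1, (key m (main m)).2.2.1⟩

theorem expansion_odd (m : ℕ) : snakeExpansion monogon (3 * m + 1) sp = v 1 * Xs (m + 1) := by
  rw [snake_eq_lad sp_valid, (spiral m).2.1]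

/-! the cluster algebra -/

/-- the sequence of cluster variables -/
noncomputable def cv (k : ℕ) : LM :=
  if k = 0 then v 0 else if k % 2 = 1 then v 1 * Xs (k / 2) else v 2 * Zs (k / 2 - 1)

theorem cv0 : cv 0 = v 0 := by unfold cv; simp
theorem cv_odd (n : ℕ) : cv (2 * n + 1) = v 1 * Xs n := by
  unfold cv
  rw [if_neg (by omega), if_pos (by omega), show (2 * n + 1) / 2 = n by omega]
theorem cv_even (n : ℕ) : cv (2 * n + 2) = v 2 * Zs n := by
  unfold cv
  rw [if_neg (by omega), if_neg (by omega), show (2 * n + 2) / 2 - 1 = n by omega]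

theorem cv_exch (k : ℕ) : cv k * cv (k + 3) = v 3 * v 4 + cv (k + 1) * cv (k + 2) := by
  have hw := ww_mul
  rcases Nat.even_or_odd k with ⟨n, hn⟩ | ⟨n, hn⟩
  · rcases Nat.eq_zero_or_pos n with h0 | h0
    · have : k = 0 := by omega
      subst this
      rw [cv0, show 0 + 3 = 2 * 1 + 1 by ring, cv_odd, show 0 + 1 = 2 * 0 + 1 by ring, cv_odd,
        show 0 + 2 = 2 * 0 + 2 by ring, cv_even, Xs_succ, Ws_succ, Ws0, Zs0, Xs0]
      unfold ui
      have h1 := v_vinv 0
      linear_combination (v 1 * v 2 * (ww + 1)) * h1 + hw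
    · obtain ⟨j, rfl⟩ : ∃ j, n = j + 1 := ⟨n - 1, by omega⟩
      rw [show k = 2 * j + 2 by omega, cv_even, show 2 * j + 2 + 3 = 2 * (j + 2) + 1 by ring, cv_odd,
        show 2 * j + 2 + 1 = 2 * (j + 1) + 1 by ring, cv_odd,
        show 2 * j + 2 + 2 = 2 * (j + 1) + 2 by ring, cv_even]
      linear_combination (v 1 * v 2) * exch_even j + hw
  · rw [show k = 2 * n + 1 by omega, cv_odd, show 2 * n + 1 + 3 = 2 * (n + 1) + 2 by ring, cv_even,
        show 2 * n + 1 + 1 = 2 * n + 2 by ring, cv_even,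
        show 2 * n + 1 + 2 = 2 * (n + 1) + 1 by ring, cv_odd]
    linear_combination (v 1 * v 2) * exch_odd n + hw

def mB (o m n : Fin 5) (i j : Fin 5) : ℤ :=
  if (i = o ∧ j = m) ∨ (i = o ∧ j = n) ∨ (i = m ∧ j = n) ∨ (i = n ∧ j = 3) ∨ (i = 3 ∧ j = o) ∨
    (i = n ∧ j = 4) ∨ (i = 4 ∧ j = o) then 1
  else if (j = o ∧ i = m) ∨ (j = o ∧ i = n) ∨ (j = m ∧ i = n) ∨ (j = n ∧ i = 3) ∨ (j = 3 ∧ i = o) ∨
    (j = n ∧ i = 4) ∨ (j = 4 ∧ i = o) then -1
  else 0

theorem mB_init : (initialSeed monogon).B = mB 0 1 2 := by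
  have h : ∀ i j : Fin 5, ((#{c : Fin 3 × Fin 3 | mSide c = i ∧ mSide (c.1, c.2 + 1) = j} : ℕ) : ℤ) -
    ((#{c : Fin 3 × Fin 3 | mSide c = j ∧ mSide (c.1, c.2 + 1) = i} : ℕ) : ℤ) = mB 0 1 2 i j := by
    decide
  funext i j
  exact h i j

theorem seed_ext {s s' : Seed monogon} (h1 : s.B = s'.B) (h2 : s.x = s'.x) : s = s' := by
  cases s; cases s'
  simp only at h1 h2
  subst h1 h2
  rfl

/-- explicit seeds -/
noncomputable def sd (o m n : Fin 5) (a b c : LM) : Seed monogon where
  B := mB o m n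
  x := fun i => if i = o then a else if i = m then b else if i = n then c else v i

theorem mut_generic (o m n : Fin 5) (a b c a' : LM)
    (hcase : (o = 0 ∧ m = 1 ∧ n = 2) ∨ (o = 1 ∧ m = 2 ∧ n = 0) ∨ (o = 2 ∧ m = 0 ∧ n = 1))
    (h : a * a' = v 3 * v 4 + b * c) :
    IsMutation monogon (sd o m n a b c) o (sd m n o b c a') := by
  have hB : ∀ i j : Fin 5, mB m n o i j = if i = o ∨ j = o then - mB o m n i j else
      mB o m n i j + max (mB o m n i o) 0 * max (mB o m n o j) 0 -
        max (- mB o m n i o) 0 * max (- mB o m n o j) 0 := by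
    rcases hcase with ⟨rfl, rfl, rfl⟩ | ⟨rfl, rfl, rfl⟩ | ⟨rfl, rfl, rfl⟩ <;> decide
  refine ⟨hB, ?_, ?_⟩
  · intro i hi
    change (if i = m then b else if i = n then c else if i = o then a' else v i) =
      (if i = o then a else if i = m then b else if i = n then c else v i)
    rw [if_neg hi, if_neg hi]
  · have e1 : (sd o m n a b c).x o = a := by
      change (if o = o then a else _) = a
      rw [if_pos rfl]
    have e2 : (sd m n o b c a').x o = a' := by
      change (if o = m then b else if o = n then c else if o = o then a' else v o) = a'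
      rcases hcase with ⟨rfl, rfl, rfl⟩ | ⟨rfl, rfl, rfl⟩ | ⟨rfl, rfl, rfl⟩ <;> simp
    rw [e1, e2, h]
    have huniv : (Finset.univ : Finset monogon.E) = ({0, 1, 2, 3, 4} : Finset (Fin 5)) := by
      change (Finset.univ : Finset (Fin 5)) = _
      decide
    rw [huniv]
    have hp1 : ∏ i ∈ ({0, 1, 2, 3, 4} : Finset (Fin 5)),
        (sd o m n a b c).x i ^ ((sd o m n a b c).B i o).toNat = v 3 * v 4 := by
      change ∏ i ∈ ({0, 1, 2, 3, 4} : Finset (Fin 5)),
        (if i = o then a else if i = m then b else if i = n then c else v i) ^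
          (mB o m n i o).toNat = v 3 * v 4
      rcases hcase with ⟨rfl, rfl, rfl⟩ | ⟨rfl, rfl, rfl⟩ | ⟨rfl, rfl, rfl⟩ <;>
      · rw [Finset.prod_insert (by decide), Finset.prod_insert (by decide),
          Finset.prod_insert (by decide), Finset.prod_insert (by decide), Finset.prod_singleton]
        simp [mB]
    have hp2 : ∏ i ∈ ({0, 1, 2, 3, 4} : Finset (Fin 5)),
        (sd o m n a b c).x i ^ (- (sd o m n a b c).B i o).toNat = b * c := by
      change ∏ i ∈ ({0, 1, 2, 3, 4} : Finset (Fin 5)),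
        (if i = o then a else if i = m then b else if i = n then c else v i) ^
          (- mB o m n i o).toNat = b * c
      rcases hcase with ⟨rfl, rfl, rfl⟩ | ⟨rfl, rfl, rfl⟩ | ⟨rfl, rfl, rfl⟩ <;>
      · rw [Finset.prod_insert (by decide), Finset.prod_insert (by decide),
          Finset.prod_insert (by decide), Finset.prod_insert (by decide), Finset.prod_singleton]
        simp [mB, mul_comm]
    exact (congrArg₂ (· + ·) hp1 hp2).symm

theorem not_bdry (k : Fin 5) (h : k ≠ 4) : ¬ IsBoundary monogon k := by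
  have : ∀ k : Fin 5, k ≠ 4 → ¬ ∃ x, mSide x = k ∧ mOpp x = x := by decide
  exact this k h

theorem reach (n : ℕ) : Reachable monogon (sd 0 1 2 (cv (3 * n)) (cv (3 * n + 1)) (cv (3 * n + 2))) := by
  induction n with
  | zero =>
    have : sd 0 1 2 (cv (3 * 0)) (cv (3 * 0 + 1)) (cv (3 * 0 + 2)) = initialSeed monogon := by
      have hB := mB_init
      have hx : (fun i : Fin 5 => if i = 0 then cv (3 * 0) else if i = 1 then cv (3 * 0 + 1) else
          if i = 2 then cv (3 * 0 + 2) else v i) = (initialSeed monogon).x := by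
        funext i
        have e0 : cv (3 * 0) = v 0 := cv0
        have e1 : cv (3 * 0 + 1) = v 1 := by
          have := cv_odd 0
          rw [Xs0, mul_one] at this
          exact this
        have e2 : cv (3 * 0 + 2) = v 2 := by
          have := cv_even 0
          rw [Zs0, mul_one] at this
          exact this
        rw [e0, e1, e2]
        change _ = v i
        split_ifs with h0 h1 h2
        · rw [h0]
        · rw [h1]
        · rw [h2]
        · rfl
      exact seed_ext (s := sd 0 1 2 _ _ _) hB.symm hx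
    rw [this]
    exact Reachable.initial
  | succ n ih =>
    have s1 := Reachable.mutate _ _ (0 : Fin 5) ih (not_bdry 0 (by decide))
      (mut_generic 0 1 2 (cv (3 * n)) (cv (3 * n + 1)) (cv (3 * n + 2)) (cv (3 * n + 3))
        (Or.inl ⟨rfl, rfl, rfl⟩) (cv_exch (3 * n)))
    have s2 := Reachable.mutate _ _ (1 : Fin 5) s1 (not_bdry 1 (by decide))
      (mut_generic 1 2 0 (cv (3 * n + 1)) (cv (3 * n + 2)) (cv (3 * n + 3)) (cv (3 * n + 4))
        (Or.inr (Or.inl ⟨rfl, rfl, rfl⟩)) (cv_exch (3 * n + 1)))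
    have s3 := Reachable.mutate _ _ (2 : Fin 5) s2 (not_bdry 2 (by decide))
      (mut_generic 2 0 1 (cv (3 * n + 2)) (cv (3 * n + 3)) (cv (3 * n + 4)) (cv (3 * n + 5))
        (Or.inr (Or.inr ⟨rfl, rfl, rfl⟩)) (cv_exch (3 * n + 2)))
    exact s3

theorem cv_isClusterVariable (k : ℕ) : IsClusterVariable monogon (cv k) := by
  obtain ⟨n, rfl | rfl | rfl⟩ := mod3_cases k
  · exact ⟨_, (0 : Fin 5), reach n, not_bdry 0 (by decide), rfl⟩
  · exact ⟨_, (1 : Fin 5), reach n, not_bdry 1 (by decide), rfl⟩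
  · exact ⟨_, (2 : Fin 5), reach n, not_bdry 2 (by decide), rfl⟩

theorem expansion_isClusterVariable (m : ℕ) :
    IsClusterVariable monogon (snakeExpansion monogon (3 * m + 1) sp) := by
  rw [expansion_odd, ← cv_odd (m + 1)]
  exact cv_isClusterVariable _

end Pool.Agent.Work.MP_a9587b_co
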