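import Pool.Agent.Work.MP_a9587b_co.Snake

namespace Pool.Agent.Work.MP_a9587b_co

open Finset

set_option linter.unusedSimpArgs false
set_option linter.unusedSectionVars false

variable {T : IdealTriangulation}

theorem mono_mul (a b : T.E → ℤ) : mono T a * mono T b = mono T (a + b) := by
  unfold mono
  rw [AddMonoidAlgebra.single_mul_single, one_mul]

theorem mono_zero : mono T 0 = 1 := by
  unfold mono
  rw [AddMonoidAlgebra.one_def]

theorem mono_sum {ι : Type*} (s : Finset ι) (f : ι → T.E → ℤ) :
    mono T (∑ i ∈ s, f i) = ∏ i ∈ s, mono T (f i) := by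
  classical
  induction s using Finset.induction_on with
  | empty => simp [mono_zero]
  | insert a s ha ih => rw [Finset.sum_insert ha, Finset.prod_insert ha, ← mono_mul, ih]

/-- the variable of `e` -/
noncomputable def vr (T : IdealTriangulation) (e : T.E) : Laurent T := mono T (Pi.single e 1)
/-- the inverse of the variable of `e` -/
noncomputable def vi (T : IdealTriangulation) (e : T.E) : Laurent T := mono T (-Pi.single e 1)

theorem vr_vi (e : T.E) : vr T e * vi T e = 1 := by
  unfold vr vi; rw [mono_mul, add_neg_cancel, mono_zero]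

theorem vi_vr (e : T.E) : vi T e * vr T e = 1 := by
  rw [mul_comm, vr_vi]

theorem vr_cancel (e : T.E) {a b : Laurent T} (h : a * vr T e = b * vr T e) : a = b := by
  have := congrArg (fun t => t * vi T e) h
  simpa [mul_assoc, vr_vi] using this

/-- weight of a matching -/
noncomputable def wt (M : Finset (GridEdge T)) : Laurent T := ∏ g ∈ M, vr T g.2.2

theorem matchings_eq (d : ℕ) (x : ℕ → T.F × Fin 3) :
    matchings T d x = pms (Incident T) (snakeEdges T d x) (snakeVerts T d x) := rfl

/-- product of the crossed variables -/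
noncomputable def cr (x : ℕ → T.F × Fin 3) (d : ℕ) : Laurent T := ∏ i ∈ range d, vr T (T.side (x i))

theorem cr_succ (x : ℕ → T.F × Fin 3) (d : ℕ) :
    cr x (d + 1) = cr x d * vr T (T.side (x d)) := by
  unfold cr; rw [Finset.prod_range_succ]

theorem cr_cancel (x : ℕ → T.F × Fin 3) (d : ℕ) {a b : Laurent T}
    (h : a * cr x d = b * cr x d) : a = b := by
  induction d with
  | zero => simpa [cr] using h
  | succ d ih =>
    rw [cr_succ, ← mul_assoc, ← mul_assoc] at h
    exact ih (vr_cancel _ h)

theorem expansion_mul_cr (d : ℕ) (x : ℕ → T.F × Fin 3) :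
    snakeExpansion T d x * cr x d = ∑ M ∈ matchings T d x, wt M := by
  unfold snakeExpansion
  rw [Finset.sum_mul]
  refine Finset.sum_congr rfl fun M _ => ?_
  unfold cr vr wt
  rw [← mono_sum, mono_mul, sub_add_cancel, mono_sum]
  rfl

/-- sum over the matchings that contain a given edge -/
noncomputable def sumOver (x : ℕ → T.F × Fin 3) (d : ℕ) (g : GridEdge T) : Laurent T :=
  ∑ M ∈ (matchings T d x).filter (fun M => g ∈ M), wt M

/-- the recursively defined pair of Laurent polynomials -/
noncomputable def pq (x : ℕ → T.F × Fin 3) : ℕ → Laurent T × Laurent T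
  | 0 => (vr T (nextSide T (x 0) 1), vr T (nextSide T (x 0) 2))
  | i + 1 =>
    if (x (i + 1)).2 = (T.opp (x i)).2 + 1 then
      (((pq x i).1 * vr T (nextSide T (T.opp (x i)) 1) +
        (pq x i).2 * vr T (nextSide T (T.opp (x i)) 2)) * vi T (T.side (x i)), (pq x i).2)
    else ((pq x i).1, ((pq x i).1 * vr T (nextSide T (T.opp (x i)) 1) +
        (pq x i).2 * vr T (nextSide T (T.opp (x i)) 2)) * vi T (T.side (x i)))

/-- the recursively defined expansion -/
noncomputable def lad (x : ℕ → T.F × Fin 3) (i : ℕ) : Laurent T :=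
  ((pq x i).1 * vr T (nextSide T (T.opp (x i)) 1) +
        (pq x i).2 * vr T (nextSide T (T.opp (x i)) 2)) * vi T (T.side (x i))

theorem pq_turn1 {x : ℕ → T.F × Fin 3} {i : ℕ}
    (h : x (i + 1) = ((T.opp (x i)).1, (T.opp (x i)).2 + 1)) :
    pq x (i + 1) = (lad x i, (pq x i).2) := by
  rw [pq, if_pos (by rw [h])]; rfl

theorem pq_turn2 {x : ℕ → T.F × Fin 3} {i : ℕ}
    (h : x (i + 1) = ((T.opp (x i)).1, (T.opp (x i)).2 + 2)) :
    pq x (i + 1) = ((pq x i).1, lad x i) := by
  have : ∀ t : Fin 3, ¬ (t + 2 = t + 1) := by decide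
  rw [pq, if_neg (by rw [h]; exact this _)]; rfl

theorem sum_split {α : Type*} (s : Finset (Finset α)) (p : Finset α → Prop) [DecidablePred p]
    (f : Finset α → Laurent T) :
    ∑ M ∈ s, f M = ∑ M ∈ s.filter p, f M + ∑ M ∈ s.filter (fun M => ¬ p M), f M :=
  (Finset.sum_filter_add_sum_filter_not s p f).symm

/-- general consequence of the ear lemma -/
theorem ear_conseq {x : ℕ → T.F × Fin 3} {i : ℕ} {a b u v : ℕ × ℕ} {g e1 e2 e3 : GridEdge T}
    (h : EarData (Incident T) (snakeEdges T (i + 1) x) (snakeVerts T (i + 1) x) a b u v g e1 e2 e3)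
    (hE : snakeEdges T (i + 2) x = insert e1 (insert e2 (insert e3 (snakeEdges T (i + 1) x))))
    (hV : snakeVerts T (i + 2) x = insert u (insert v (snakeVerts T (i + 1) x))) :
    sumOver x (i + 2) e2 = (∑ M ∈ matchings T (i + 1) x, wt M) * vr T e2.2.2 ∧
    sumOver x (i + 2) e3 * vr T g.2.2 = sumOver x (i + 1) g * vr T e1.2.2 * vr T e3.2.2 ∧
    ∑ M ∈ matchings T (i + 2) x, wt M = sumOver x (i + 2) e2 + sumOver x (i + 2) e3 := by
  have hm : matchings T (i + 2) x = pms (Incident T)
      (insert e1 (insert e2 (insert e3 (snakeEdges T (i + 1) x))))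
      (insert u (insert v (snakeVerts T (i + 1) x))) := by
    rw [matchings_eq, hE, hV]
  have h3 : (matchings T (i + 2) x).filter (fun M => e3 ∈ M) =
      (matchings T (i + 2) x).filter (fun M => ¬ e2 ∈ M) := by
    refine Finset.filter_congr fun M hM => ?_
    rw [hm] at hM
    exact (h.not_mem2 (mem_pms.1 hM)).1.symm
  refine ⟨?_, ?_, ?_⟩
  · unfold sumOver
    rw [hm]
    exact h.sum_mid (fun g : GridEdge T => vr T g.2.2)
  · unfold sumOver
    rw [h3, hm]
    exact h.sum_outer (fun g : GridEdge T => vr T g.2.2)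
  · unfold sumOver
    rw [h3]
    exact sum_split _ _ _

/-- the base case: one tile -/
theorem base_tile (x : ℕ → T.F × Fin 3) :
    sumOver x 1 (eP T x 0) = (pq x 0).1 * vr T (nextSide T (T.opp (x 0)) 1) ∧
    sumOver x 1 (eQ T x 0) = (pq x 0).2 * vr T (nextSide T (T.opp (x 0)) 2) ∧
    ∑ M ∈ matchings T 1 x, wt M = sumOver x 1 (eP T x 0) + sumOver x 1 (eQ T x 0) := by
  have hd : EarData (Incident T) {eS T x 0} {(0, 0), (1, 0)} (0, 0) (1, 0) (0, 1) (1, 1)
      (eS T x 0) (eW T x 0) (eN T x 0) (eE T x 0) := by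
    refine ⟨?_, by simp, by simp, by simp, by simp, by simp, by simp, by simp, ?_, ?_, ?_, ?_⟩
    · intro e he w hw
      rw [mem_singleton] at he
      subst he
      simpa [Incident, eS, tilePos] using hw
    · intro w; simp [Incident, eS, tilePos]
    · intro w; simp [Incident, eW, tilePos]
    · intro w; simp [Incident, eN, tilePos]
    · intro w; simp [Incident, eE, tilePos]; tauto
  have hE : snakeEdges T 1 x = insert (eW T x 0) (insert (eN T x 0)
      (insert (eE T x 0) {eS T x 0})) := by
    rw [snakeEdges_succ T x 0]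
    ext e
    simp only [snakeEdges, range_zero, biUnion_empty, empty_union, mem_insert, mem_singleton]
    tauto
  have hV : snakeVerts T 1 x = insert (0, 1) (insert (1, 1) {(0, 0), (1, 0)}) := by
    rw [snakeVerts_succ T x 0]
    ext e
    simp only [snakeVerts, range_zero, biUnion_empty, empty_union, mem_insert, mem_singleton,
      tileVerts, tilePos]
    tauto
  have hm : matchings T 1 x = pms (Incident T)
      (insert (eW T x 0) (insert (eN T x 0) (insert (eE T x 0) {eS T x 0})))
      (insert (0, 1) (insert (1, 1) {(0, 0), (1, 0)})) := by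
    rw [matchings_eq, hE, hV]
  have hbase : pms (Incident T) {eS T x 0} {((0 : ℕ), (0 : ℕ)), (1, 0)} = {{eS T x 0}} := by
    ext M
    rw [mem_pms, mem_singleton]
    constructor
    · rintro ⟨h1, h2⟩
      obtain ⟨g, ⟨hg, _⟩, _⟩ := h2 (0, 0) (by simp)
      rw [Finset.subset_singleton_iff] at h1
      rcases h1 with h1 | h1
      · rw [h1] at hg; simp at hg
      · exact h1
    · rintro rfl
      refine ⟨subset_rfl, ?_⟩
      intro v hv
      refine ⟨eS T x 0, ⟨by simp, ?_⟩, ?_⟩
      · simp only [mem_insert, mem_singleton] at hv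
        rcases hv with rfl | rfl
        · simp [Incident, eS, tilePos]
        · simp [Incident, eS, tilePos]
      · rintro e ⟨he, _⟩
        exact mem_singleton.1 he
  have h3 : (matchings T 1 x).filter (fun M => eE T x 0 ∈ M) =
      (matchings T 1 x).filter (fun M => ¬ eN T x 0 ∈ M) := by
    refine Finset.filter_congr fun M hM => ?_
    rw [hm] at hM
    exact (hd.not_mem2 (mem_pms.1 hM)).1.symm
  have hP : eP T x 0 = eE T x 0 := by unfold eP; simp
  have hQ : eQ T x 0 = eN T x 0 := by unfold eQ; simp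
  have s1 : sumOver x 1 (eQ T x 0) = vr T (labS T x 0) * vr T (labN T x 0) := by
    rw [hQ]
    unfold sumOver
    rw [hm]
    have := hd.sum_mid (fun g : GridEdge T => vr T g.2.2)
    rw [hbase] at this
    simpa [wt, eS, eN] using this
  have s2 : sumOver x 1 (eP T x 0) = vr T (labW T x 0) * vr T (labE T x 0) := by
    rw [hP]
    apply vr_cancel (labS T x 0)
    unfold sumOver
    rw [h3, hm]
    have := hd.sum_outer (fun g : GridEdge T => vr T g.2.2)
    rw [hbase] at this
    have h4 : (({{eS T x 0}} : Finset (Finset (GridEdge T))).filter (fun M => eS T x 0 ∈ M)) =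
        {{eS T x 0}} := by
      ext M; simp only [mem_filter, mem_singleton]
      constructor
      · exact fun h => h.1
      · rintro rfl; simp
    rw [h4] at this
    simp only [sum_singleton, prod_singleton] at this
    have e1 : (eS T x 0).2.2 = labS T x 0 := rfl
    have e2 : (eW T x 0).2.2 = labW T x 0 := rfl
    have e3 : (eE T x 0).2.2 = labE T x 0 := rfl
    rw [e1, e2, e3] at this
    rw [show vr T (labW T x 0) * vr T (labE T x 0) * vr T (labS T x 0) =
      vr T (labS T x 0) * vr T (labW T x 0) * vr T (labE T x 0) by ring]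
    exact this
  refine ⟨?_, ?_, ?_⟩
  · rw [s2]
    have e1 : labW T x 0 = nextSide T (x 0) 1 := by unfold labW; simp
    have e2 : labE T x 0 = nextSide T (T.opp (x 0)) 1 := by unfold labE; simp
    rw [e1, e2]; rfl
  · rw [s1]
    have e1 : labS T x 0 = nextSide T (x 0) 2 := by unfold labS; simp
    have e2 : labN T x 0 = nextSide T (T.opp (x 0)) 2 := by unfold labN; simp
    rw [e1, e2]; rfl
  · rw [hP, hQ]
    unfold sumOver
    rw [h3, add_comm]
    exact sum_split _ _ _

theorem main_recur {x : ℕ → T.F × Fin 3} (hx : Valid T x) (i : ℕ) :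
    sumOver x (i + 1) (eP T x i) = (pq x i).1 * vr T (nextSide T (T.opp (x i)) 1) * cr x i ∧
    sumOver x (i + 1) (eQ T x i) = (pq x i).2 * vr T (nextSide T (T.opp (x i)) 2) * cr x i ∧
    ∑ M ∈ matchings T (i + 1) x, wt M =
      sumOver x (i + 1) (eP T x i) + sumOver x (i + 1) (eQ T x i) := by
  induction i with
  | zero =>
    obtain ⟨h1, h2, h3⟩ := base_tile x
    refine ⟨?_, ?_, h3⟩
    · rw [zero_add, h1]; simp [cr]
    · rw [zero_add, h2]; simp [cr]
  | succ i ih =>
    obtain ⟨ih1, ih2, ih3⟩ := ih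
    have hT : ∑ M ∈ matchings T (i + 1) x, wt M = lad x i * cr x (i + 1) := by
      rw [ih3, ih1, ih2, cr_succ]
      unfold lad
      have := vi_vr (T := T) (T.side (x i))
      linear_combination (-((pq x i).1 * vr T (nextSide T (T.opp (x i)) 1) +
        (pq x i).2 * vr T (nextSide T (T.opp (x i)) 2)) * cr x i) * this
    rcases turn_cases hx i with h | h
    · obtain ⟨a, b, u, v, e1, hl, hear, hE, hV⟩ := ear_turn1 h
      obtain ⟨c1, c2, c3⟩ := ear_conseq hear hE hV
      rw [pq_turn1 h]
      refine ⟨?_, ?_, c3⟩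
      · rw [c1, hT, eP_lab]; ring
      · apply vr_cancel (nextSide T (T.opp (x i)) 2)
        rw [eQ_lab, eQ_lab, hl, ih2] at c2
        rw [c2, cr_succ]
        ring
    · obtain ⟨a, b, u, v, e1, hl, hear, hE, hV⟩ := ear_turn2 h
      obtain ⟨c1, c2, c3⟩ := ear_conseq hear hE hV
      rw [pq_turn2 h]
      refine ⟨?_, ?_, by rw [c3, add_comm]⟩
      · apply vr_cancel (nextSide T (T.opp (x i)) 1)
        rw [eP_lab, eP_lab, hl, ih1] at c2
        rw [c2, cr_succ]
        ring
      · rw [c1, hT, eQ_lab]; ring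

/-- The snake graph expansion satisfies the Ptolemy-type recursion. -/
theorem snake_eq_lad {x : ℕ → T.F × Fin 3} (hx : Valid T x) (i : ℕ) :
    snakeExpansion T (i + 1) x = lad x i := by
  obtain ⟨h1, h2, h3⟩ := main_recur hx i
  apply cr_cancel x (i + 1)
  rw [expansion_mul_cr, h3, h1, h2, cr_succ]
  unfold lad
  have := vi_vr (T := T) (T.side (x i))
  linear_combination (-((pq x i).1 * vr T (nextSide T (T.opp (x i)) 1) +
        (pq x i).2 * vr T (nextSide T (T.opp (x i)) 2)) * cr x i) * this

end Pool.Agent.Work.MP_a9587b_co
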