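import Pool.Agent.Work.MP_a9587b_co.Monogon

namespace Pool.Agent.Work.MP_a9587b_co

open Finset

set_option linter.unusedSimpArgs false
set_option linter.unusedSectionVars false

/-- exponent vector of `u ^ a * w ^ b` -/
def ph (a b : ℤ) : Fin 5 → ℤ := ![a, -b, -a - b, b, b]

theorem ph_sub (a b a0 b0 : ℤ) : -ph a0 b0 + ph a b = ph (a - a0) (b - b0) := by
  funext i
  fin_cases i <;> simp [ph] <;> ring

theorem uu_eq : uu = mono monogon (ph 1 0) := by
  unfold uu v vinv vr vi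
  rw [mono_mul]
  congr 1
  funext i
  change ((Pi.single (0 : Fin 5) (1 : ℤ) : Fin 5 → ℤ) +
    -(Pi.single (2 : Fin 5) (1 : ℤ) : Fin 5 → ℤ)) i = _
  fin_cases i <;> simp [ph]

theorem ui_eq : ui = mono monogon (ph (-1) 0) := by
  unfold ui v vinv vr vi
  rw [mono_mul]
  congr 1
  funext i
  change ((Pi.single (2 : Fin 5) (1 : ℤ) : Fin 5 → ℤ) +
    -(Pi.single (0 : Fin 5) (1 : ℤ) : Fin 5 → ℤ)) i = _
  fin_cases i <;> simp [ph]

theorem ww_eq : ww = mono monogon (ph 0 1) := by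
  unfold ww v vinv vr vi
  rw [mono_mul, mono_mul, mono_mul]
  congr 1
  funext i
  change ((Pi.single (3 : Fin 5) (1 : ℤ) : Fin 5 → ℤ) + (Pi.single (4 : Fin 5) (1 : ℤ) : Fin 5 → ℤ) +
    -(Pi.single (1 : Fin 5) (1 : ℤ) : Fin 5 → ℤ) + -(Pi.single (2 : Fin 5) (1 : ℤ) : Fin 5 → ℤ)) i = _
  fin_cases i <;> simp [ph]

/-- positive coefficients exactly on the monomials `u ^ a * w ^ b` with `C a b` -/
def PosOn (f : LM) (C : ℤ → ℤ → Prop) : Prop :=
  (∀ a b, C a b → 0 < f.coeff (ph a b)) ∧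
  (∀ e : Fin 5 → ℤ, f.coeff e ≠ 0 → ∃ a b, C a b ∧ e = ph a b)

theorem PosOn.nonneg {f : LM} {C : ℤ → ℤ → Prop} (h : PosOn f C) (e : Fin 5 → ℤ) :
    0 ≤ f.coeff e := by
  by_contra hlt
  push Not at hlt
  obtain ⟨a, b, hC, rfl⟩ := h.2 e hlt.ne
  exact absurd (h.1 a b hC) (not_lt.2 hlt.le)

theorem PosOn.add {f g : LM} {C D : ℤ → ℤ → Prop} (hf : PosOn f C) (hg : PosOn g D) :
    PosOn (f + g) (fun a b => C a b ∨ D a b) := by
  constructor
  · intro a b h
    have h1 := hf.nonneg (ph a b)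
    have h2 := hg.nonneg (ph a b)
    have e : (f + g).coeff (ph a b) = f.coeff (ph a b) + g.coeff (ph a b) := rfl
    rw [e]
    rcases h with h | h
    · have := hf.1 a b h; omega
    · have := hg.1 a b h; omega
  · intro e he
    have e' : (f + g).coeff e = f.coeff e + g.coeff e := rfl
    rw [e'] at he
    by_cases h1 : f.coeff e = 0
    · have h2 : g.coeff e ≠ 0 := by
        intro h2; apply he; rw [h1, h2]; rfl
      obtain ⟨a, b, hC, rfl⟩ := hg.2 e h2
      exact ⟨a, b, Or.inr hC, rfl⟩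
    · obtain ⟨a, b, hC, rfl⟩ := hf.2 e h1
      exact ⟨a, b, Or.inl hC, rfl⟩

theorem PosOn.shift {f : LM} {C : ℤ → ℤ → Prop} (hf : PosOn f C) (a0 b0 : ℤ) :
    PosOn (mono monogon (ph a0 b0) * f) (fun a b => C (a - a0) (b - b0)) := by
  have key : ∀ e : Fin 5 → ℤ, (mono monogon (ph a0 b0) * f).coeff e = f.coeff (-ph a0 b0 + e) := by
    intro e
    unfold mono
    rw [AddMonoidAlgebra.coeff_single_mul_apply, one_mul]
    rfl
  constructor
  · intro a b h
    rw [key, ph_sub]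
    exact hf.1 _ _ h
  · intro e he
    rw [key] at he
    obtain ⟨a, b, hC, hab⟩ := hf.2 _ he
    refine ⟨a + a0, b + b0, by simpa using hC, ?_⟩
    have : e = ph a0 b0 + ph a b := by rw [← hab]; simp
    rw [this]
    funext i
    fin_cases i <;> simp [ph] <;> ring

theorem PosOn.congr {f : LM} {C D : ℤ → ℤ → Prop} (hf : PosOn f C)
    (h : ∀ a b, D a b ↔ C a b) : PosOn f D :=
  ⟨fun a b hd => hf.1 a b ((h a b).1 hd), fun e he => by
    obtain ⟨a, b, hC, hab⟩ := hf.2 e he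
    exact ⟨a, b, (h a b).2 hC, hab⟩⟩

theorem posOn_zero : PosOn 0 (fun _ _ => False) :=
  ⟨fun _ _ h => h.elim, fun _ h => absurd rfl h⟩

theorem posOn_one : PosOn 1 (fun a b => a = 0 ∧ b = 0) := by
  have h0 : (ph 0 0 : Fin 5 → ℤ) = 0 := by
    funext i; fin_cases i <;> simp [ph]
  have key : ∀ e : Fin 5 → ℤ, (1 : LM).coeff e = if (0 : Fin 5 → ℤ) = e then 1 else 0 := by
    intro e
    rw [AddMonoidAlgebra.one_def, AddMonoidAlgebra.coeff_single, Finsupp.single_apply]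
    rfl
  constructor
  · rintro a b ⟨rfl, rfl⟩
    rw [key, h0, if_pos rfl]; norm_num
  · intro e he
    rw [key] at he
    refine ⟨0, 0, ⟨rfl, rfl⟩, ?_⟩
    rw [h0]
    by_contra hne
    exact he (if_neg (fun h => hne h.symm))

def CW (n a b : ℤ) : Prop :=
  (b = 0 ∧ -(n - 1) ≤ a ∧ a ≤ n - 1 ∧ (a + n - 1) % 2 = 0) ∨
  (1 ≤ b ∧ b ≤ n - 1 ∧ -(n - 1) ≤ a ∧ a ≤ n - 1 - b)
def CX (n a b : ℤ) : Prop := (a = -n ∧ b = 0) ∨ (1 ≤ b ∧ b ≤ n ∧ -n ≤ a ∧ a ≤ n - 1 - b)
def CZ (n a b : ℤ) : Prop := (a = -n ∧ b = 0) ∨ (1 ≤ b ∧ b ≤ n ∧ -n ≤ a ∧ a ≤ n - b)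

theorem supports (n : ℕ) : PosOn (Ws n) (CW n) ∧ PosOn (Xs n) (CX n) ∧ PosOn (Zs n) (CZ n) := by
  induction n with
  | zero =>
    rw [Ws0, Xs0, Zs0]
    refine ⟨posOn_zero.congr ?_, posOn_one.congr ?_, posOn_one.congr ?_⟩
    · intro a b; unfold CW; beta_reduce
      constructor
      · intro h; omega
      · exact False.elim
    · intro a b; unfold CX; beta_reduce; omega
    · intro a b; unfold CZ; beta_reduce; omega
  | succ n ih =>
    obtain ⟨hW, hX, hZ⟩ := ih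
    have hW' : PosOn (Ws (n + 1)) (CW ((n + 1 : ℕ) : ℤ)) := by
      rw [Ws_succ, uu_eq]
      refine ((hW.shift 1 0).add hZ).congr ?_
      intro a b; unfold CW CZ; push_cast; omega
    have hwW := hW'.shift 0 1
    have hX' : PosOn (Xs (n + 1)) (CX ((n + 1 : ℕ) : ℤ)) := by
      rw [Xs_succ, ui_eq, ww_eq]
      refine ((hwW.add hZ).shift (-1) 0).congr ?_
      intro a b; unfold CW CZ CX; push_cast; omega
    refine ⟨hW', hX', ?_⟩
    rw [Zs_succ, ww_eq]
    refine (hwW.add hX').congr ?_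
    intro a b; unfold CW CZ CX; push_cast; omega

/-- exponent vector of `x₁ * u ^ a * w ^ b` -/
def qh (a b : ℤ) : Fin 5 → ℤ := ![a, 1 - b, -a - b, b, b]

theorem supp_v1Xs (n : ℕ) (e : Fin 5 → ℤ) :
    e ∈ (v 1 * Xs n).coeff.support ↔ ∃ a b, CX n a b ∧ e = qh a b := by
  have hX := (supports n).2.1
  have key : (v 1 * Xs n).coeff e = (Xs n).coeff (-(Pi.single (1 : Fin 5) (1 : ℤ)) + e) := by
    unfold v vr mono
    rw [AddMonoidAlgebra.coeff_single_mul_apply, one_mul]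
    rfl
  have hq : ∀ a b, (Pi.single (1 : Fin 5) (1 : ℤ) : Fin 5 → ℤ) + ph a b = qh a b := by
    intro a b
    funext i
    fin_cases i <;> simp [ph, qh] <;> ring
  refine (Finsupp.mem_support_iff.trans (Iff.of_eq (congrArg (fun t : ℤ => t ≠ 0) key))).trans ?_
  have hq1 : ∀ a b, -(Pi.single (1 : Fin 5) (1 : ℤ) : Fin 5 → ℤ) + qh a b = ph a b := by
    intro a b
    rw [← hq, neg_add_cancel_left]
  have hq2 : ∀ (e' : Fin 5 → ℤ) (a b : ℤ),
      -(Pi.single (1 : Fin 5) (1 : ℤ) : Fin 5 → ℤ) + e' = ph a b → e' = qh a b := by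
    intro e' a b h
    rw [← hq, ← h, add_neg_cancel_left]
  constructor
  · intro h
    obtain ⟨a, b, hC, hab⟩ := hX.2 _ h
    exact ⟨a, b, hC, hq2 e a b hab⟩
  · rintro ⟨a, b, hC, rfl⟩
    have h1 := (hX.1 a b hC).ne'
    rw [← hq1 a b] at h1
    exact h1

/-- A polyhedron that contains the Newton polytope. -/
def polyH (n : ℝ) : Set (Fin 5 → ℝ) :=
  {y | y 1 = 1 - y 4 ∧ y 2 = - y 0 - y 4 ∧ y 3 = y 4 ∧ -n ≤ y 0 ∧ 0 ≤ y 4 ∧ y 4 ≤ n ∧
    y 0 + y 4 ≤ n - 1 ∧ y 0 + n ≤ (2 * n - 2) * y 4}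

theorem polyH_convex (n : ℝ) : Convex ℝ (polyH n) := by
  intro y hy z hz s t hs ht hst
  obtain ⟨y1, y2, y3, y4, y5, y6, y7, y8⟩ := hy
  obtain ⟨z1, z2, z3, z4, z5, z6, z7, z8⟩ := hz
  have hs' : s = 1 - t := by linarith
  subst hs'
  refine ⟨?_, ?_, ?_, ?_, ?_, ?_, ?_, ?_⟩ <;>
    simp only [Pi.add_apply, Pi.smul_apply, smul_eq_mul]
  · rw [y1, z1]; ring
  · rw [y2, z2]; ring
  · rw [y3, z3]
  · nlinarith [mul_le_mul_of_nonneg_left y4 hs, mul_le_mul_of_nonneg_left z4 ht]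
  · nlinarith [mul_nonneg hs y5, mul_nonneg ht z5]
  · nlinarith [mul_le_mul_of_nonneg_left y6 hs, mul_le_mul_of_nonneg_left z6 ht]
  · nlinarith [mul_le_mul_of_nonneg_left y7 hs, mul_le_mul_of_nonneg_left z7 ht]
  · nlinarith [mul_le_mul_of_nonneg_left y8 hs, mul_le_mul_of_nonneg_left z8 ht]

theorem saturated (n : ℕ) (hn : 1 ≤ n) : IsSaturated monogon (v 1 * Xs n) := by
  intro z hz
  have hsub : newtonPolytope monogon (v 1 * Xs n) ⊆ polyH n := by
    unfold newtonPolytope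
    refine convexHull_min ?_ (polyH_convex n)
    rintro y ⟨e, he, rfl⟩
    obtain ⟨a, b, hC, rfl⟩ := (supp_v1Xs n e).1 he
    have hn' : (1 : ℝ) ≤ n := by exact_mod_cast hn
    have h0 : (qh a b 0 : ℤ) = a := rfl
    have h1 : (qh a b 1 : ℤ) = 1 - b := rfl
    have h2 : (qh a b 2 : ℤ) = -a - b := rfl
    have h3 : (qh a b 3 : ℤ) = b := rfl
    have h4 : (qh a b 4 : ℤ) = b := rfl
    have goalR : ((1 - b : ℤ) : ℝ) = 1 - (b : ℝ) ∧ ((-a - b : ℤ) : ℝ) = -(a : ℝ) - b ∧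
        (b : ℝ) = b ∧ -(n : ℝ) ≤ a ∧ 0 ≤ (b : ℝ) ∧ (b : ℝ) ≤ n ∧ (a : ℝ) + b ≤ n - 1 ∧
        (a : ℝ) + n ≤ (2 * n - 2) * b := by
      refine ⟨by push_cast; ring, by push_cast; ring, rfl, ?_, ?_, ?_, ?_, ?_⟩
      · have : -(n : ℤ) ≤ a := by unfold CX at hC; omega
        exact_mod_cast this
      · have : (0 : ℤ) ≤ b := by unfold CX at hC; omega
        exact_mod_cast this
      · have : b ≤ (n : ℤ) := by unfold CX at hC; omega
        exact_mod_cast this
      · have : a + b ≤ (n : ℤ) - 1 := by unfold CX at hC; omega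
        exact_mod_cast this
      · have : a + n ≤ (2 * (n : ℤ) - 2) * b := by
          rcases hC with ⟨rfl, rfl⟩ | ⟨h1, h2, h3, h4⟩
          · simp
          · have hnn : (1 : ℤ) ≤ n := by exact_mod_cast hn
            nlinarith
        exact_mod_cast this
    exact goalR
  obtain ⟨h1, h2, h3, h4, h5, h6, h7, h8⟩ := hsub hz
  change ((z (1 : Fin 5) : ℤ) : ℝ) = 1 - ((z (4 : Fin 5) : ℤ) : ℝ) at h1
  change ((z (2 : Fin 5) : ℤ) : ℝ) = - ((z (0 : Fin 5) : ℤ) : ℝ) - ((z (4 : Fin 5) : ℤ) : ℝ) at h2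
  change ((z (3 : Fin 5) : ℤ) : ℝ) = ((z (4 : Fin 5) : ℤ) : ℝ) at h3
  change -(n : ℝ) ≤ ((z (0 : Fin 5) : ℤ) : ℝ) at h4
  change 0 ≤ ((z (4 : Fin 5) : ℤ) : ℝ) at h5
  change ((z (4 : Fin 5) : ℤ) : ℝ) ≤ (n : ℝ) at h6
  change ((z (0 : Fin 5) : ℤ) : ℝ) + ((z (4 : Fin 5) : ℤ) : ℝ) ≤ (n : ℝ) - 1 at h7
  change ((z (0 : Fin 5) : ℤ) : ℝ) + (n : ℝ) ≤ (2 * (n : ℝ) - 2) * ((z (4 : Fin 5) : ℤ) : ℝ) at h8
  have i1 : z (1 : Fin 5) = 1 - z (4 : Fin 5) := by exact_mod_cast h1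
  have i2 : z (2 : Fin 5) = - z (0 : Fin 5) - z (4 : Fin 5) := by exact_mod_cast h2
  have i3 : z (3 : Fin 5) = z (4 : Fin 5) := by exact_mod_cast h3
  have i4 : -(n : ℤ) ≤ z (0 : Fin 5) := by exact_mod_cast h4
  have i5 : 0 ≤ z (4 : Fin 5) := by exact_mod_cast h5
  have i6 : z (4 : Fin 5) ≤ (n : ℤ) := by exact_mod_cast h6
  have i7 : z (0 : Fin 5) + z (4 : Fin 5) ≤ (n : ℤ) - 1 := by exact_mod_cast h7
  have i8 : z (0 : Fin 5) + (n : ℤ) ≤ (2 * (n : ℤ) - 2) * z (4 : Fin 5) := by exact_mod_cast h8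
  refine (supp_v1Xs n z).2 ⟨z (0 : Fin 5), z (4 : Fin 5), ?_, ?_⟩
  · unfold CX
    rcases eq_or_lt_of_le i5 with h0 | h0
    · left
      rw [← h0, mul_zero] at i8
      omega
    · right
      omega
  · funext i
    fin_cases i
    · rfl
    · exact i1
    · exact i2
    · exact i3
    · rfl

/-! ### the placement of the crossing points -/

theorem not_interleave_in {a b c e : ℚ} (h1 : min a b ≤ c) (h2 : c ≤ max a b) (h3 : min a b ≤ e)
    (h4 : e ≤ max a b) : ¬ Interleave a b c e := by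
  rintro (⟨_, _, h | h⟩ | ⟨_, _, h | h⟩)
  · exact absurd h (not_lt.2 h3)
  · exact absurd h (not_lt.2 h4)
  · exact absurd h (not_lt.2 h1)
  · exact absurd h (not_lt.2 h2)

theorem not_interleave_out {a b c e : ℚ} (h1 : c ≤ min a b ∨ max a b ≤ c)
    (h2 : e ≤ min a b ∨ max a b ≤ e) : ¬ Interleave a b c e := by
  rintro (⟨h3, h4, _⟩ | ⟨h3, h4, _⟩)
  · rcases h1 with h | h
    · exact absurd h3 (not_lt.2 h)
    · exact absurd h4 (not_lt.2 h)
  · rcases h2 with h | h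
    · exact absurd h3 (not_lt.2 h)
    · exact absurd h4 (not_lt.2 h)

/-- position of the crossing points -/
def pl (m : ℕ) (i : ℕ) : ℚ := ((i : ℚ) + 1) / (3 * m + 2)

theorem opp0 (m : ℕ) : monogon.opp (sp (3 * m)) = ((1, 2) : Fin 3 × Fin 3) := by
  rw [sp0]; decide
theorem opp1 (m : ℕ) : monogon.opp (sp (3 * m + 1)) = ((2, 0) : Fin 3 × Fin 3) := by
  rw [sp1]; decide
theorem opp2 (m : ℕ) : monogon.opp (sp (3 * m + 2)) = ((0, 1) : Fin 3 × Fin 3) := by
  rw [sp2]; decide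

theorem sp_mem (j : ℕ) : sp j = (0, 0) ∨ sp j = (1, 0) ∨ sp j = (2, 1) := by
  obtain ⟨k, rfl | rfl | rfl⟩ := mod3_cases j
  · left; exact sp0 k
  · right; left; exact sp1 k
  · right; right; exact sp2 k

theorem sp_ne_opp (i j : ℕ) : (sp j : monogon.F × Fin 3) ≠ monogon.opp (sp i) := by
  have h : ∀ a b : Fin 3 × Fin 3, (a = (0, 0) ∨ a = (1, 0) ∨ a = (2, 1)) →
      (b = (0, 0) ∨ b = (1, 0) ∨ b = (2, 1)) → b ≠ mOpp a := by decide
  exact h _ _ (sp_mem i) (sp_mem j)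

theorem segTri_sp (i : ℕ) : segTri monogon sp i = (⟨i % 3, Nat.mod_lt _ (by norm_num)⟩ : Fin 3) := by
  unfold segTri
  by_cases h : i = 0
  · subst h; rfl
  · rw [if_neg h]
    obtain ⟨j, rfl⟩ : ∃ j, i = j + 1 := ⟨i - 1, by omega⟩
    rw [Nat.add_sub_cancel]
    obtain ⟨k, rfl | rfl | rfl⟩ := mod3_cases j
    · rw [opp0]; apply Fin.ext; simp <;> omega
    · rw [opp1]; apply Fin.ext; simp <;> omega
    · rw [opp2]; apply Fin.ext; simp <;> omega

theorem segStart_sp (m i : ℕ) : segStart monogon sp (pl m) i =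
    (if i % 3 = 0 then 2 else if i % 3 = 1 then 3 else 1) - (i : ℚ) / (3 * m + 2) := by
  unfold segStart
  by_cases h : i = 0
  · subst h
    rw [if_pos rfl, if_pos rfl]
    have : ((sp 0).2 + 2 : Fin 3) = 2 := by decide
    rw [this]
    simp
  · rw [if_neg h]
    obtain ⟨j, rfl⟩ : ∃ j, i = j + 1 := ⟨i - 1, by omega⟩
    rw [Nat.add_sub_cancel]
    obtain ⟨k, rfl | rfl | rfl⟩ := mod3_cases j
    · rw [opp0, if_neg (by omega), if_pos (by omega)]
      simp only [pl, Nat.cast_add, Nat.cast_one]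
      norm_num
      ring
    · rw [opp1, if_neg (by omega), if_neg (by omega)]
      simp only [pl, Nat.cast_add, Nat.cast_one]
      norm_num
    · rw [opp2, if_pos (by omega)]
      simp only [pl, Nat.cast_add, Nat.cast_one]
      norm_num
      ring

theorem segEnd_sp (m i : ℕ) (hi : i ≤ 3 * m + 1) : segEnd monogon (3 * m + 1) sp (pl m) i =
    (if i % 3 = 2 then 1 else 0) + ((i : ℚ) + 1) / (3 * m + 2) := by
  unfold segEnd
  by_cases h : i = 3 * m + 1
  · subst h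
    rw [if_pos rfl, Nat.add_sub_cancel, opp0, if_neg (by omega)]
    have : (((1, 2) : Fin 3 × Fin 3).2 + 2 : Fin 3) = 1 := by decide
    rw [this]
    have hpos : (3 * (m : ℚ) + 2) ≠ 0 := by positivity
    push_cast
    field_simp
    norm_num
    ring
  · rw [if_neg h]
    obtain ⟨k, rfl | rfl | rfl⟩ := mod3_cases i
    · rw [sp0, if_neg (by omega)]; simp [pl]
    · rw [sp1, if_neg (by omega)]; simp [pl]
    · rw [sp2, if_pos (by omega)]; simp [pl]

theorem sp_placement (m : ℕ) : IsPlacement monogon (3 * m + 1) sp (pl m) := by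
  have hpos : (0 : ℚ) < 3 * m + 2 := by positivity
  refine ⟨?_, ?_, ?_⟩
  · intro i hi
    unfold pl
    constructor
    · positivity
    · rw [div_lt_one hpos]
      have : (i : ℚ) < 3 * m + 1 := by exact_mod_cast hi
      linarith
  · intro i hi j hj hij
    constructor
    · intro _ hp
      unfold pl at hp
      rw [div_left_inj' hpos.ne'] at hp
      have : (j : ℚ) = i := by linarith
      exact hij (by exact_mod_cast this.symm)
    · intro hx
      exact absurd hx (sp_ne_opp i j)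
  · intro i hi j hj hij ht
    rw [segTri_sp, segTri_sp] at ht
    have hmod : i % 3 = j % 3 := by
      have := congrArg Fin.val ht
      simpa using this
    rw [segStart_sp, segStart_sp, segEnd_sp m i hi, segEnd_sp m j hj, ← hmod]
    have ti : (i : ℚ) / (3 * m + 2) ≤ 1 := by
      rw [div_le_one hpos]
      have : (i : ℚ) ≤ 3 * m + 1 := by exact_mod_cast hi
      linarith
    have ti' : ((i : ℚ) + 1) / (3 * m + 2) ≤ 1 := by
      rw [div_le_one hpos]
      have : (i : ℚ) ≤ 3 * m + 1 := by exact_mod_cast hi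
      linarith
    have ti0 : 0 ≤ (i : ℚ) / (3 * m + 2) := by positivity
    have ti0' : 0 ≤ ((i : ℚ) + 1) / (3 * m + 2) := by positivity
    have tj : (j : ℚ) / (3 * m + 2) ≤ 1 := by
      rw [div_le_one hpos]
      have : (j : ℚ) ≤ 3 * m + 1 := by exact_mod_cast hj
      linarith
    have tj' : ((j : ℚ) + 1) / (3 * m + 2) ≤ 1 := by
      rw [div_le_one hpos]
      have : (j : ℚ) ≤ 3 * m + 1 := by exact_mod_cast hj
      linarith
    have tj0 : 0 ≤ (j : ℚ) / (3 * m + 2) := by positivity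
    have tj0' : 0 ≤ ((j : ℚ) + 1) / (3 * m + 2) := by positivity
    have hr : ∃ c d : ℚ, (if i % 3 = 0 then (2 : ℚ) else if i % 3 = 1 then 3 else 1) = c ∧
        (if i % 3 = 2 then (1 : ℚ) else 0) = d ∧
        (d + 2 ≤ c ∨ (d = 1 ∧ c = 1)) := by
      rcases (by omega : i % 3 = 0 ∨ i % 3 = 1 ∨ i % 3 = 2) with h | h | h
      · exact ⟨2, 0, by simp [h], by simp [h], by norm_num⟩
      · exact ⟨3, 0, by simp [h], by simp [h], by norm_num⟩
      · exact ⟨1, 1, by simp [h], by simp [h], by norm_num⟩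
    obtain ⟨c, d, e0, e1, hcd⟩ := hr
    rw [e0, e1]
    rcases lt_or_gt_of_ne hij with h | h
    · have hij' : (i : ℚ) ≤ j := by exact_mod_cast h.le
      have d1 : (i : ℚ) / (3 * m + 2) ≤ (j : ℚ) / (3 * m + 2) := by gcongr
      have d2 : ((i : ℚ) + 1) / (3 * m + 2) ≤ ((j : ℚ) + 1) / (3 * m + 2) := by gcongr
      generalize (i : ℚ) / (3 * m + 2) = A at *
      generalize ((i : ℚ) + 1) / (3 * m + 2) = A' at *
      generalize (j : ℚ) / (3 * m + 2) = B at *
      generalize ((j : ℚ) + 1) / (3 * m + 2) = B' at *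
      rcases hcd with hcd | ⟨rfl, rfl⟩
      · apply not_interleave_in
        · rw [min_le_iff]; right; linarith
        · rw [le_max_iff]; left; linarith
        · rw [min_le_iff]; right; linarith
        · rw [le_max_iff]; left; linarith
      · apply not_interleave_out
        · rw [le_min_iff, max_le_iff]; left; constructor <;> linarith
        · rw [le_min_iff, max_le_iff]; right; constructor <;> linarith
    · have hij' : (j : ℚ) ≤ i := by exact_mod_cast h.le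
      have d1 : (j : ℚ) / (3 * m + 2) ≤ (i : ℚ) / (3 * m + 2) := by gcongr
      have d2 : ((j : ℚ) + 1) / (3 * m + 2) ≤ ((i : ℚ) + 1) / (3 * m + 2) := by gcongr
      generalize (i : ℚ) / (3 * m + 2) = A at *
      generalize ((i : ℚ) + 1) / (3 * m + 2) = A' at *
      generalize (j : ℚ) / (3 * m + 2) = B at *
      generalize ((j : ℚ) + 1) / (3 * m + 2) = B' at *
      rcases hcd with hcd | ⟨rfl, rfl⟩
      · apply not_interleave_out
        · rw [le_min_iff, max_le_iff]; right; constructor <;> linarith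
        · rw [le_min_iff, max_le_iff]; left; constructor <;> linarith
      · apply not_interleave_in
        · rw [min_le_iff]; left; linarith
        · rw [le_max_iff]; right; linarith
        · rw [min_le_iff]; left; linarith
        · rw [le_max_iff]; right; linarith

/-- The spiralling arc with `3 m + 1` crossings. -/
def spiralArc (m : ℕ) : Arc monogon where
  crossings := 3 * m + 1
  crossings_pos := by omega
  flag := sp
  internal := by
    intro i _
    obtain ⟨k, rfl | rfl | rfl⟩ := mod3_cases i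
    · rw [opp0, sp0]
      exact (by decide : ((1, 2) : Fin 3 × Fin 3) ≠ (0, 0))
    · rw [opp1, sp1]
      exact (by decide : ((2, 0) : Fin 3 × Fin 3) ≠ (1, 0))
    · rw [opp2, sp2]
      exact (by decide : ((0, 1) : Fin 3 × Fin 3) ≠ (2, 1))
  step := fun i _ => sp_valid i
  simple := ⟨pl m, sp_placement m⟩

theorem card_puncture : Nat.card {p : monogon.V // IsPuncture monogon p} = 2 := by
  have h : ∀ p : Fin 3, (∀ c : Fin 3 × Fin 3, mVert c = p → mOpp c ≠ c) ↔ p ≠ 0 := by decide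
  have e : {p : monogon.V // IsPuncture monogon p} ≃ {p : Fin 3 // p ≠ 0} :=
    Equiv.subtypeEquivRight h
  rw [Nat.card_congr e, Nat.card_eq_fintype_card]
  decide

theorem card_boundary : Nat.card {e : monogon.E // IsBoundary monogon e} = 1 := by
  have h : ∀ e : Fin 5, (∃ x : Fin 3 × Fin 3, mSide x = e ∧ mOpp x = x) ↔ e = 4 := by decide
  have e : {e : monogon.E // IsBoundary monogon e} ≃ {e : Fin 5 // e = 4} :=
    Equiv.subtypeEquivRight h
  rw [Nat.card_congr e, Nat.card_eq_fintype_card]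
  decide

end Pool.Agent.Work.MP_a9587b_co
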