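import Pool.Agent.Work.MP_a9587b_co.Defs
import Pool.Agent.Work.MP_a9587b_co.Ear

namespace Pool.Agent.Work.MP_a9587b_co

open Finset

set_option linter.unusedSimpArgs false
set_option linter.unusedSectionVars false

variable (T : IdealTriangulation) (x : ℕ → T.F × Fin 3)

/-! edges -/
def eS (i : ℕ) : GridEdge T := (true, ((tilePos T x i).1, (tilePos T x i).2), labS T x i)
def eN (i : ℕ) : GridEdge T := (true, ((tilePos T x i).1, (tilePos T x i).2 + 1), labN T x i)
def eW (i : ℕ) : GridEdge T := (false, ((tilePos T x i).1, (tilePos T x i).2), labW T x i)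
def eE (i : ℕ) : GridEdge T := (false, ((tilePos T x i).1 + 1, (tilePos T x i).2), labE T x i)

theorem tileEdges_eq (i : ℕ) : tileEdges T x i = {eS T x i, eN T x i, eW T x i, eE T x i} := rfl

def eP (i : ℕ) : GridEdge T := if i % 2 = 0 then eE T x i else eN T x i
def eQ (i : ℕ) : GridEdge T := if i % 2 = 0 then eN T x i else eE T x i

theorem eP_lab (i : ℕ) : (eP T x i).2.2 = nextSide T (T.opp (x i)) 1 := by
  unfold eP eE eN labE labN
  split_ifs <;> rfl

theorem eQ_lab (i : ℕ) : (eQ T x i).2.2 = nextSide T (T.opp (x i)) 2 := by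
  unfold eQ eE eN labE labN
  split_ifs <;> rfl

theorem pos_up {i : ℕ} (h : GoesUp T x i) :
    tilePos T x (i + 1) = ((tilePos T x i).1, (tilePos T x i).2 + 1) := by
  rw [tilePos, if_pos h]

theorem pos_right {i : ℕ} (h : ¬ GoesUp T x i) :
    tilePos T x (i + 1) = ((tilePos T x i).1 + 1, (tilePos T x i).2) := by
  rw [tilePos, if_neg h]

variable {x}

/-- validity of an infinite crossing sequence -/
def Valid (x : ℕ → T.F × Fin 3) : Prop :=
  ∀ i, (x (i + 1)).1 = (T.opp (x i)).1 ∧ (x (i + 1)).2 ≠ (T.opp (x i)).2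

variable {T}

theorem fin3_cases (a b : Fin 3) (h : a ≠ b) : a = b + 1 ∨ a = b + 2 := by
  revert a b; decide

theorem turn_cases (hx : Valid T x) (i : ℕ) :
    x (i + 1) = ((T.opp (x i)).1, (T.opp (x i)).2 + 1) ∨
    x (i + 1) = ((T.opp (x i)).1, (T.opp (x i)).2 + 2) := by
  obtain ⟨h1, h2⟩ := hx i
  rcases fin3_cases _ _ h2 with h | h
  · left; exact Prod.ext h1 h
  · right; exact Prod.ext h1 h

theorem side_opp (y : T.F × Fin 3) : T.side (T.opp y) = T.side y :=
  ((T.side_eq_iff y (T.opp y)).2 (Or.inr rfl)).symm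

theorem turn1_next1 {i : ℕ} (h : x (i + 1) = ((T.opp (x i)).1, (T.opp (x i)).2 + 1)) :
    nextSide T (x (i + 1)) 1 = nextSide T (T.opp (x i)) 2 := by
  rw [h]
  unfold nextSide
  simp only
  congr 2
  generalize (T.opp (x i)).2 = t
  revert t; decide

theorem turn1_next2 {i : ℕ} (h : x (i + 1) = ((T.opp (x i)).1, (T.opp (x i)).2 + 1)) :
    nextSide T (x (i + 1)) 2 = T.side (x i) := by
  rw [← side_opp (x i), h]
  unfold nextSide
  simp only
  congr 1
  refine Prod.ext rfl ?_
  simp only
  generalize (T.opp (x i)).2 = t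
  revert t; decide

theorem turn2_next2 {i : ℕ} (h : x (i + 1) = ((T.opp (x i)).1, (T.opp (x i)).2 + 2)) :
    nextSide T (x (i + 1)) 2 = nextSide T (T.opp (x i)) 1 := by
  rw [h]
  unfold nextSide
  simp only
  congr 2
  generalize (T.opp (x i)).2 = t
  revert t; decide

theorem turn2_next1 {i : ℕ} (h : x (i + 1) = ((T.opp (x i)).1, (T.opp (x i)).2 + 2)) :
    nextSide T (x (i + 1)) 1 = T.side (x i) := by
  rw [← side_opp (x i), h]
  unfold nextSide
  simp only
  congr 1
  refine Prod.ext rfl ?_
  simp only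
  generalize (T.opp (x i)).2 = t
  revert t; decide

theorem turn1_up {i : ℕ} (h : x (i + 1) = ((T.opp (x i)).1, (T.opp (x i)).2 + 1)) :
    GoesUp T x i ↔ i % 2 = 0 := by
  unfold GoesUp
  rw [h]
  simp

theorem turn2_up {i : ℕ} (h : x (i + 1) = ((T.opp (x i)).1, (T.opp (x i)).2 + 2)) :
    GoesUp T x i ↔ ¬ i % 2 = 0 := by
  unfold GoesUp
  rw [h]
  have : ∀ t : Fin 3, ¬ (t + 2 = t + 1) := by decide
  simp [this]

variable (T x)

theorem snakeEdges_succ (d : ℕ) :
    snakeEdges T (d + 1) x = snakeEdges T d x ∪ {eS T x d, eN T x d, eW T x d, eE T x d} := by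
  unfold snakeEdges
  rw [Finset.range_add_one, Finset.biUnion_insert, Finset.union_comm]
  rfl

theorem snakeVerts_succ (d : ℕ) :
    snakeVerts T (d + 1) x = snakeVerts T d x ∪ tileVerts T x d := by
  unfold snakeVerts
  rw [Finset.range_add_one, Finset.biUnion_insert, Finset.union_comm]

theorem tilePos_mono (i : ℕ) : (tilePos T x i).1 ≤ (tilePos T x (i + 1)).1 ∧
    (tilePos T x i).2 ≤ (tilePos T x (i + 1)).2 := by
  by_cases h : GoesUp T x i
  · rw [pos_up T x h]; simp
  · rw [pos_right T x h]; simp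

theorem verts_bound (d : ℕ) : ∀ w ∈ snakeVerts T (d + 1) x,
    w.1 ≤ (tilePos T x d).1 + 1 ∧ w.2 ≤ (tilePos T x d).2 + 1 := by
  induction d with
  | zero =>
    intro w hw
    rw [snakeVerts_succ] at hw
    simp only [snakeVerts, range_zero, biUnion_empty, empty_union, tileVerts, mem_insert,
      mem_singleton] at hw
    rcases hw with rfl | rfl | rfl | rfl <;> simp
  | succ d ih =>
    intro w hw
    rw [snakeVerts_succ, mem_union] at hw
    rcases hw with hw | hw
    · have h1 := ih w hw
      have h2 := tilePos_mono T x d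
      omega
    · simp only [tileVerts, mem_insert, mem_singleton] at hw
      rcases hw with rfl | rfl | rfl | rfl <;> simp

theorem edges_verts (d : ℕ) : ∀ e ∈ snakeEdges T d x, ∀ w, Incident T e w →
    w ∈ snakeVerts T d x := by
  intro e he w hw
  simp only [snakeEdges, mem_biUnion, mem_range] at he
  obtain ⟨i, hi, he⟩ := he
  simp only [snakeVerts, mem_biUnion, mem_range]
  refine ⟨i, hi, ?_⟩
  simp only [tileEdges, mem_insert, mem_singleton] at he
  rcases he with rfl | rfl | rfl | rfl <;>
    · simp only [Incident] at hw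
      simp only [tileVerts, mem_insert, mem_singleton]
      rcases hw with rfl | rfl <;> simp

theorem tileVerts_sub (d : ℕ) : tileVerts T x d ⊆ snakeVerts T (d + 1) x := by
  rw [snakeVerts_succ]; exact subset_union_right

theorem eN_mem (d : ℕ) : eN T x d ∈ snakeEdges T (d + 1) x := by
  rw [snakeEdges_succ]; simp

theorem eE_mem (d : ℕ) : eE T x d ∈ snakeEdges T (d + 1) x := by
  rw [snakeEdges_succ]; simp

variable {T x}

/-- extension on top -/
theorem ear_up {i : ℕ} (h : GoesUp T x i) (hl : labS T x (i + 1) = labN T x i) :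
    ∃ a b u v, EarData (Incident T) (snakeEdges T (i + 1) x) (snakeVerts T (i + 1) x) a b u v
      (eN T x i) (eW T x (i + 1)) (eN T x (i + 1)) (eE T x (i + 1)) ∧
      snakeEdges T (i + 2) x = insert (eW T x (i + 1)) (insert (eN T x (i + 1))
        (insert (eE T x (i + 1)) (snakeEdges T (i + 1) x))) ∧
      snakeVerts T (i + 2) x = insert u (insert v (snakeVerts T (i + 1) x)) := by
  have hp := pos_up T x h
  set X := (tilePos T x i).1 with hX
  set Y := (tilePos T x i).2 with hY
  have hS : eS T x (i + 1) = eN T x i := by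
    unfold eS eN
    rw [hp, hl]
  refine ⟨(X, Y + 1), (X + 1, Y + 1), (X, Y + 2), (X + 1, Y + 2), ?_, ?_, ?_⟩
  · refine ⟨edges_verts T x (i + 1), ?_, ?_, by simp, by simp, ?_, ?_, eN_mem T x i, ?_, ?_, ?_, ?_⟩
    · intro hh
      have := (verts_bound T x i _ hh).2
      simp only [← hY] at this
      omega
    · intro hh
      have := (verts_bound T x i _ hh).2
      simp only [← hY] at this
      omega
    · apply tileVerts_sub
      simp [tileVerts, ← hX, ← hY]
    · apply tileVerts_sub
      simp [tileVerts, ← hX, ← hY]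
    · intro w; simp [Incident, eN, ← hX, ← hY]
    · intro w; simp [Incident, eW, hp, ← hX, ← hY]
    · intro w; simp [Incident, eN, hp, ← hX, ← hY]
    · intro w; simp [Incident, eE, hp, ← hX, ← hY]; tauto
  · rw [snakeEdges_succ T x (i + 1), hS]
    have hm := eN_mem T x i
    ext e
    simp only [mem_union, mem_insert, mem_singleton]
    constructor
    · rintro (h1 | rfl | rfl | rfl | rfl) <;> tauto
    · rintro (rfl | rfl | rfl | h1) <;> tauto
  · rw [snakeVerts_succ T x (i + 1)]
    have h1 : (X, Y + 1) ∈ snakeVerts T (i + 1) x := by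
      apply tileVerts_sub; simp [tileVerts, ← hX, ← hY]
    have h2 : (X + 1, Y + 1) ∈ snakeVerts T (i + 1) x := by
      apply tileVerts_sub; simp [tileVerts, ← hX, ← hY]
    ext e
    simp only [mem_union, mem_insert, mem_singleton, tileVerts, hp]
    constructor
    · rintro (h3 | rfl | rfl | rfl | rfl) <;> tauto
    · rintro (rfl | rfl | h3) <;> tauto

/-- extension to the right -/
theorem ear_right {i : ℕ} (h : ¬ GoesUp T x i) (hl : labW T x (i + 1) = labE T x i) :
    ∃ a b u v, EarData (Incident T) (snakeEdges T (i + 1) x) (snakeVerts T (i + 1) x) a b u v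
      (eE T x i) (eS T x (i + 1)) (eE T x (i + 1)) (eN T x (i + 1)) ∧
      snakeEdges T (i + 2) x = insert (eS T x (i + 1)) (insert (eE T x (i + 1))
        (insert (eN T x (i + 1)) (snakeEdges T (i + 1) x))) ∧
      snakeVerts T (i + 2) x = insert u (insert v (snakeVerts T (i + 1) x)) := by
  have hp := pos_right T x h
  set X := (tilePos T x i).1 with hX
  set Y := (tilePos T x i).2 with hY
  have hS : eW T x (i + 1) = eE T x i := by
    unfold eW eE
    rw [hp, hl]
  refine ⟨(X + 1, Y), (X + 1, Y + 1), (X + 2, Y), (X + 2, Y + 1), ?_, ?_, ?_⟩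
  · refine ⟨edges_verts T x (i + 1), ?_, ?_, by simp, by simp, ?_, ?_, eE_mem T x i, ?_, ?_, ?_, ?_⟩
    · intro hh
      have := (verts_bound T x i _ hh).1
      simp only [← hX] at this
      omega
    · intro hh
      have := (verts_bound T x i _ hh).1
      simp only [← hX] at this
      omega
    · apply tileVerts_sub
      simp [tileVerts, ← hX, ← hY]
    · apply tileVerts_sub
      simp [tileVerts, ← hX, ← hY]
    · intro w; simp [Incident, eE, ← hX, ← hY]
    · intro w; simp [Incident, eS, hp, ← hX, ← hY]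
    · intro w; simp [Incident, eE, hp, ← hX, ← hY]
    · intro w; simp [Incident, eN, hp, ← hX, ← hY]; tauto
  · rw [snakeEdges_succ T x (i + 1), hS]
    have hm := eE_mem T x i
    ext e
    simp only [mem_union, mem_insert, mem_singleton]
    constructor
    · rintro (h1 | rfl | rfl | rfl | rfl) <;> tauto
    · rintro (rfl | rfl | rfl | h1) <;> tauto
  · rw [snakeVerts_succ T x (i + 1)]
    have h1 : (X + 1, Y) ∈ snakeVerts T (i + 1) x := by
      apply tileVerts_sub; simp [tileVerts, ← hX, ← hY]
    have h2 : (X + 1, Y + 1) ∈ snakeVerts T (i + 1) x := by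
      apply tileVerts_sub; simp [tileVerts, ← hX, ← hY]
    ext e
    simp only [mem_union, mem_insert, mem_singleton, tileVerts, hp]
    constructor
    · rintro (h3 | rfl | rfl | rfl | rfl) <;> tauto
    · rintro (rfl | rfl | h3) <;> tauto

theorem ear_turn1 {i : ℕ} (h : x (i + 1) = ((T.opp (x i)).1, (T.opp (x i)).2 + 1)) :
    ∃ a b u v e1, e1.2.2 = T.side (x i) ∧
      EarData (Incident T) (snakeEdges T (i + 1) x) (snakeVerts T (i + 1) x) a b u v
      (eQ T x i) e1 (eP T x (i + 1)) (eQ T x (i + 1)) ∧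
      snakeEdges T (i + 2) x = insert e1 (insert (eP T x (i + 1))
        (insert (eQ T x (i + 1)) (snakeEdges T (i + 1) x))) ∧
      snakeVerts T (i + 2) x = insert u (insert v (snakeVerts T (i + 1) x)) := by
  by_cases hi : i % 2 = 0
  · have hi' : ¬ (i + 1) % 2 = 0 := by omega
    have hup : GoesUp T x i := (turn1_up h).2 hi
    have hl : labS T x (i + 1) = labN T x i := by
      unfold labS labN
      rw [if_neg hi', if_pos hi, turn1_next1 h]
    obtain ⟨a, b, u, v, h1, h2, h3⟩ := ear_up hup hl
    refine ⟨a, b, u, v, eW T x (i + 1), ?_, ?_, ?_, h3⟩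
    · unfold eW labW
      simp only
      rw [if_neg hi', turn1_next2 h]
    · unfold eP eQ
      rw [if_neg hi', if_neg hi', if_pos hi]
      exact h1
    · unfold eP eQ
      rw [if_neg hi', if_neg hi']
      exact h2
  · have hi' : (i + 1) % 2 = 0 := by omega
    have hup : ¬ GoesUp T x i := fun hh => hi ((turn1_up h).1 hh)
    have hl : labW T x (i + 1) = labE T x i := by
      unfold labW labE
      rw [if_pos hi', if_neg hi, turn1_next1 h]
    obtain ⟨a, b, u, v, h1, h2, h3⟩ := ear_right hup hl
    refine ⟨a, b, u, v, eS T x (i + 1), ?_, ?_, ?_, h3⟩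
    · unfold eS labS
      simp only
      rw [if_pos hi', turn1_next2 h]
    · unfold eP eQ
      rw [if_pos hi', if_pos hi', if_neg hi]
      exact h1
    · unfold eP eQ
      rw [if_pos hi', if_pos hi']
      exact h2

theorem ear_turn2 {i : ℕ} (h : x (i + 1) = ((T.opp (x i)).1, (T.opp (x i)).2 + 2)) :
    ∃ a b u v e1, e1.2.2 = T.side (x i) ∧
      EarData (Incident T) (snakeEdges T (i + 1) x) (snakeVerts T (i + 1) x) a b u v
      (eP T x i) e1 (eQ T x (i + 1)) (eP T x (i + 1)) ∧
      snakeEdges T (i + 2) x = insert e1 (insert (eQ T x (i + 1))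
        (insert (eP T x (i + 1)) (snakeEdges T (i + 1) x))) ∧
      snakeVerts T (i + 2) x = insert u (insert v (snakeVerts T (i + 1) x)) := by
  by_cases hi : i % 2 = 0
  · have hi' : ¬ (i + 1) % 2 = 0 := by omega
    have hup : ¬ GoesUp T x i := fun hh => (turn2_up h).1 hh hi
    have hl : labW T x (i + 1) = labE T x i := by
      unfold labW labE
      rw [if_neg hi', if_pos hi, turn2_next2 h]
    obtain ⟨a, b, u, v, h1, h2, h3⟩ := ear_right hup hl
    refine ⟨a, b, u, v, eS T x (i + 1), ?_, ?_, ?_, h3⟩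
    · unfold eS labS
      simp only
      rw [if_neg hi', turn2_next1 h]
    · unfold eP eQ
      rw [if_neg hi', if_neg hi', if_pos hi]
      exact h1
    · unfold eP eQ
      rw [if_neg hi', if_neg hi']
      exact h2
  · have hi' : (i + 1) % 2 = 0 := by omega
    have hup : GoesUp T x i := (turn2_up h).2 hi
    have hl : labS T x (i + 1) = labN T x i := by
      unfold labS labN
      rw [if_pos hi', if_neg hi, turn2_next2 h]
    obtain ⟨a, b, u, v, h1, h2, h3⟩ := ear_up hup hl
    refine ⟨a, b, u, v, eW T x (i + 1), ?_, ?_, ?_, h3⟩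
    · unfold eW labW
      simp only
      rw [if_pos hi', turn2_next1 h]
    · unfold eP eQ
      rw [if_pos hi', if_pos hi', if_neg hi]
      exact h1
    · unfold eP eQ
      rw [if_pos hi', if_pos hi']
      exact h2

end Pool.Agent.Work.MP_a9587b_co
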